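import Pool.Agent.Helper19.SK.Defs

/-!
# Go on a finite graph: rules and first facts
-/

set_option autoImplicit false

namespace Pool.Agent.Helper19.SK

/-- all chains have an adjacent empty point -/
def Alive {V : Type} (G : SimpleGraph V) (P : Pos V) : Prop := ∀ v, P v ≠ none → Lib G P v

section
variable {V : Type} {G : SimpleGraph V}

theorem chain_symm {P : Pos V} {v w : V} (h : Chain G P v w) : Chain G P w v := by
  induction h with
  | refl => exact Relation.ReflTransGen.refl
  | tail _ hbc ih => exact Relation.ReflTransGen.head ⟨hbc.1.symm, hbc.2.symm⟩ ih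

theorem chain_eq {P : Pos V} {v w : V} (h : Chain G P v w) : P w = P v := by
  induction h with
  | refl => rfl
  | tail _ hbc ih => rw [← hbc.2, ih]

/-- chains of colour `c` persist when the stones of colour `c` persist -/
theorem chain_mono {P Q : Pos V} {c : Bool} (hPQ : ∀ w, P w = some c → Q w = some c) {v w : V} (hv : P v = some c)
    (h : Chain G P v w) : Chain G Q v w := by
  induction h with
  | refl => exact Relation.ReflTransGen.refl
  | @tail b d hb hbd ih =>
    have h1 : P b = some c := by rw [chain_eq hb, hv]
    have h2 : P d = some c := by rw [← hbd.2, h1]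
    exact ih.tail ⟨hbd.1, by rw [hPQ b h1, hPQ d h2]⟩

theorem lib_mono {P Q : Pos V} {c : Bool} (hPQ : ∀ w, P w = some c → Q w = some c) (hn : ∀ w, P w = none → Q w = none)
    {v : V} (hv : P v = some c) (h : Lib G P v) : Lib G Q v := by
  obtain ⟨w, u, h1, h2, h3⟩ := h
  exact ⟨w, u, chain_mono hPQ hv h1, h2, hn u h3⟩

theorem lib_chain {P : Pos V} {v w : V} (h : Chain G P v w) (hw : Lib G P w) : Lib G P v := by
  obtain ⟨a, u, h1, h2, h3⟩ := hw
  exact ⟨a, u, h.trans h1, h2, h3⟩

theorem clear_other {c d : Bool} {P : Pos V} {v : V} (h : P v = some d) (hcd : d ≠ c) : clear G c P v = some d := by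
  unfold clear
  rw [if_neg]
  · exact h
  · rintro ⟨h1, -⟩
    rw [h] at h1
    exact hcd (Option.some.inj h1)

theorem clear_none {c : Bool} {P : Pos V} {v : V} (h : P v = none) : clear G c P v = none := by
  unfold clear
  rw [if_neg]
  · exact h
  · rintro ⟨h1, -⟩
    rw [h] at h1
    cases h1

theorem clear_some {c d : Bool} {P : Pos V} {v : V} (h : clear G c P v = some d) : P v = some d := by
  unfold clear at h
  split_ifs at h
  exact h

theorem clear_lib {c : Bool} {P : Pos V} {v : V} (h : Lib G P v) : clear G c P v = P v := by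
  unfold clear
  rw [if_neg]
  rintro ⟨-, h2⟩
  exact h2 h

theorem clear_dead {c : Bool} {P : Pos V} {v : V} (h : P v = some c) (h2 : ¬ Lib G P v) : clear G c P v = none := by
  unfold clear
  rw [if_pos ⟨h, h2⟩]

theorem not_lib_of_clear {c : Bool} {P : Pos V} {v : V} (h : clear G c P v = none) (h2 : P v ≠ none) : P v = some c ∧ ¬ Lib G P v := by
  unfold clear at h
  split_ifs at h with h1
  · exact h1
  · exact absurd h h2

/-- the chains which survive are unchanged -/
theorem lib_clear {c d : Bool} {P : Pos V} {v : V} (hv : clear G c P v = some d) (h : Lib G P v) : Lib G (clear G c P) v := by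
  have hv' := clear_some hv
  obtain ⟨w, u, h1, h2, h3⟩ := h
  refine ⟨w, u, ?_, h2, clear_none h3⟩
  have key : ∀ b, Chain G P v b → clear G c P b = some d := by
    intro b hb
    rw [clear_lib (lib_chain (chain_symm hb) ⟨w, u, h1, h2, h3⟩), chain_eq hb, hv']
  clear h2 h3 hv
  induction h1 with
  | refl => exact Relation.ReflTransGen.refl
  | @tail b d hb hbd ih => exact ih.tail ⟨hbd.1, by rw [key b hb, key _ (hb.tail hbd)]⟩

/-- after a placement all chains have an adjacent empty point -/
theorem alive_play (P : Pos V) (c : Bool) (e : V) : Alive G (play G P c e) := by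
  intro v hv
  unfold play at hv ⊢
  set P1 : Pos V := put P e (some c) with hP1
  set P2 := clear G (!c) P1 with hP2
  obtain ⟨d, hd⟩ := Option.ne_none_iff_exists'.1 hv
  have hd2 := clear_some hd
  have hd1 := clear_some hd2
  by_cases hdc : d = c
  · subst hdc
    refine lib_clear hd ?_
    by_contra hcon
    rw [clear_dead hd2 hcon] at hd
    cases hd
  · have hd' : d = !c := by
      cases d <;> cases c <;> simp_all
    subst hd'
    have h1 : Lib G P1 v := by
      by_contra hcon
      rw [hP2, clear_dead hd1 hcon] at hd2
      cases hd2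
    exact lib_clear hd (lib_clear hd2 h1)

theorem put_same (P : Pos V) (e : V) (x : Option Bool) : put P e x e = x := by
  unfold put
  rw [if_pos rfl]

theorem put_ne {P : Pos V} {e v : V} (x : Option Bool) (h : v ≠ e) : put P e x v = P v := by
  unfold put
  rw [if_neg h]

/-! ## Placements -/

theorem own_of {P : Pos V} {c : Bool} {e v : V} (h : play G P c e v = some c) : v = e ∨ P v = some c := by
  by_cases hv : v = e
  · exact Or.inl hv
  · right
    have h1 := clear_some (clear_some h)
    rwa [put_ne _ hv] at h1

theorem some_bne (c : Bool) : (some (!c) : Option Bool) ≠ some c := by cases c <;> simp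

theorem bne_c (c : Bool) : (!c) ≠ c := by cases c <;> simp

theorem opp_of {P : Pos V} {c : Bool} {e v : V} (h : play G P c e v = some (!c)) : P v = some (!c) := by
  have h1 := clear_some (clear_some h)
  by_cases hv : v = e
  · subst hv
    rw [put_same] at h1
    exact absurd h1.symm (some_bne c)
  · rwa [put_ne _ hv] at h1

theorem none_of {P : Pos V} {c : Bool} {e v : V} (h : P v = none) (hv : v ≠ e) : play G P c e v = none :=
  clear_none (clear_none (by rw [put_ne _ hv, h]))

theorem ne_e {P : Pos V} {e v : V} {d : Bool} (he : P e = none) (hv : P v = some d) : v ≠ e := by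
  rintro rfl
  rw [he] at hv
  cases hv

/-- the stage after the removal of the chains of the other colour -/
theorem mid_none {P : Pos V} {c : Bool} {e v : V} (he : P e = none) (hv : P v = some (!c)) :
    play G P c e v = none ↔ clear G (!c) (put P e (some c)) v = none := by
  constructor
  · intro h
    by_contra hcon
    obtain ⟨d, hd⟩ := Option.ne_none_iff_exists'.1 hcon
    have h1 := clear_some hd
    rw [put_ne _ (ne_e he hv), hv] at h1
    have hd' : d = !c := (Option.some.inj h1).symm
    subst hd'
    have h2 : play G P c e v = some (!c) := clear_other hd (bne_c c)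
    rw [h2] at h
    cases h
  · intro h
    exact clear_none h

/-- a removed chain of the other colour is adjacent to `e` -/
theorem dead_adj {P : Pos V} {c : Bool} {e v : V} (hA : Alive G P) (he : P e = none) (hv : P v = some (!c))
    (hdead : ¬ Lib G (put P e (some c)) v) : ∃ w, Chain G (put P e (some c)) v w ∧ G.Adj w e := by
  obtain ⟨w, u, h1, h2, h3⟩ := hA v (by rw [hv]; exact Option.some_ne_none _)
  have h4 : Chain G (put P e (some c)) v w :=
    chain_mono (c := !c) (fun x hx => by rw [put_ne _ (ne_e he hx), hx]) hv h1
  by_cases hu : u = e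
  · subst hu
    exact ⟨w, h4, h2⟩
  · exact absurd ⟨w, u, h4, h2, by rw [put_ne _ hu, h3]⟩ hdead

/-- a captured stone: some captured stone is adjacent to `e` -/
theorem capt_adj {P : Pos V} {c : Bool} {e v : V} (hA : Alive G P) (he : P e = none) (hv : P v = some (!c))
    (h : play G P c e v = none) : ∃ w, P w = some (!c) ∧ play G P c e w = none ∧ G.Adj w e := by
  have h1 := (mid_none he hv).1 h
  have hq : put P e (some c) v = some (!c) := by rw [put_ne _ (ne_e he hv), hv]
  have h2 := not_lib_of_clear h1 (by rw [hq]; exact Option.some_ne_none _)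
  obtain ⟨w, hw, hwe⟩ := dead_adj hA he hv h2.2
  have hw1 : put P e (some c) w = some (!c) := by rw [chain_eq hw, hq]
  have hne : w ≠ e := hwe.ne
  have hw2 : P w = some (!c) := by rwa [put_ne _ hne] at hw1
  refine ⟨w, hw2, (mid_none he hw2).2 (clear_dead hw1 fun hl => h2.2 (lib_chain hw hl)), hwe⟩

/-- the neighbours of a captured stone -/
theorem capt_nbr {P : Pos V} {c : Bool} {e v : V} (he : P e = none) (hv : P v = some (!c))
    (h : play G P c e v = none) {w : V} (hw : G.Adj v w) :
    (w = e ∨ P w = some c) ∨ (P w = some (!c) ∧ play G P c e w = none) := by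
  have h1 := (mid_none he hv).1 h
  have hq : put P e (some c) v = some (!c) := by rw [put_ne _ (ne_e he hv), hv]
  have h2 := (not_lib_of_clear h1 (by rw [hq]; exact Option.some_ne_none _)).2
  by_cases hwe : w = e
  · exact Or.inl (Or.inl hwe)
  · have h3 : P w ≠ none := by
      intro h4
      exact h2 ⟨v, w, Relation.ReflTransGen.refl, hw, by rw [put_ne _ hwe, h4]⟩
    obtain ⟨d, hd⟩ := Option.ne_none_iff_exists'.1 h3
    by_cases hdc : d = c
    · subst hdc
      exact Or.inl (Or.inr hd)
    · have hd' : d = !c := by
        cases d <;> cases c <;> simp_all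
      subst hd'
      refine Or.inr ⟨hd, (mid_none he hd).2 (clear_dead (by rw [put_ne _ hwe, hd]) fun hl => h2 ?_)⟩
      refine lib_chain (Relation.ReflTransGen.single ⟨hw, ?_⟩) hl
      rw [hq, put_ne _ hwe, hd]

/-- a capturing placement is not a suicide -/
theorem own_stay {P : Pos V} {c : Bool} {e v : V} (hA : Alive G P) (he : P e = none) (hv : P v = some (!c))
    (h : play G P c e v = none) {x : V} (hx : x = e ∨ P x = some c) : play G P c e x = some c := by
  obtain ⟨w, hw1, hw2, hw3⟩ := capt_adj hA he hv h
  have hwm := (mid_none he hw1).1 hw2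
  set R := clear G (!c) (put P e (some c)) with hR
  have hown : ∀ y, (y = e ∨ P y = some c) → R y = some c := by
    intro y hy
    refine clear_other ?_ (bne_c c).symm
    rcases hy with rfl | hy
    · exact put_same _ _ _
    · rw [put_ne _ (ne_e he hy), hy]
  have hle : Lib G R e := ⟨e, w, Relation.ReflTransGen.refl, hw3.symm, hwm⟩
  have hlx : Lib G R x := by
    rcases hx with rfl | hx
    · exact hle
    · obtain ⟨a, u, h1, h2, h3⟩ := hA x (by rw [hx]; exact Option.some_ne_none _)
      have h4 : Chain G R x a := chain_mono (c := c) (fun y hy => hown y (Or.inr hy)) hx h1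
      by_cases hu : u = e
      · subst hu
        refine lib_chain (h4.tail ⟨h2, ?_⟩) hle
        rw [hown _ (Or.inl rfl), hown a (Or.inr (by rw [chain_eq h1, hx]))]
      · exact ⟨a, u, h4, h2, clear_none (by rw [put_ne _ hu, h3])⟩
  have h5 : play G P c e x = R x := clear_lib hlx
  rw [h5, hown x hx]

/-- a stone of the other colour next to an empty point different from `e` is not captured -/
theorem opp_stay {P : Pos V} {c : Bool} {e v x : V} (he : P e = none) (hv : P v = some (!c)) (hvx : G.Adj v x)
    (hx : P x = none) (hxe : x ≠ e) : play G P c e v = some (!c) := by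
  have h1 : Lib G (put P e (some c)) v := ⟨v, x, Relation.ReflTransGen.refl, hvx, by rw [put_ne _ hxe, hx]⟩
  have h2 : clear G (!c) (put P e (some c)) v = some (!c) := by rw [clear_lib h1, put_ne _ (ne_e he hv), hv]
  exact clear_other h2 (bne_c c)

end

end Pool.Agent.Helper19.SK
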