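import Pool.Agent.Helper19.SK.Ko

/-!
# Go on a finite graph: cycles of forced play consist of ko captures
-/

set_option autoImplicit false

namespace Pool.Agent.Helper19.SK

section
variable {V : Type} {G : SimpleGraph V} {n : ℕ} {P : ℕ → Pos V} {c : ℕ → Bool} {m : ℕ → Option V}

theorem alive_from (h : Closed G n P c m) {i j : ℕ} (hij : i ≤ j) (hj : j ≤ n) (hA : Alive G (P i)) : Alive G (P j) := by
  induction j with
  | zero =>
    have : i = 0 := by omega
    rwa [this] at hA
  | succ j ih =>
    rcases Nat.lt_or_ge j i with hlt | hge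
    · have : i = j + 1 := by omega
      rwa [this] at hA
    · rcases h.1 j (by omega) with ⟨-, h1⟩ | ⟨e, -, -, h1⟩
      · rw [h1]
        exact ih hge (by omega)
      · rw [h1]
        exact alive_play _ _ _

theorem alive_of (h : Closed G n P c m) {i : ℕ} (hi : i < n) (hm : m i ≠ none) {j : ℕ} (hj : j ≤ n) : Alive G (P j) := by
  have h1 : Alive G (P (i + 1)) := by
    rcases h.1 i hi with ⟨h2, -⟩ | ⟨e, -, -, h2⟩
    · exact absurd h2 hm
    · rw [h2]
      exact alive_play _ _ _
  have h2 : Alive G (P 0) := by
    rw [← h.2]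
    exact alive_from h (show i + 1 ≤ n by omega) le_rfl h1
  exact alive_from h (Nat.zero_le j) hj h2

theorem place_of (h : Closed G n P c m) {i : ℕ} (hi : i < n) {e : V} (hm : m i = some e) :
    P i e = none ∧ P (i + 1) = play G (P i) (c i) e := by
  rcases h.1 i hi with ⟨h2, -⟩ | ⟨e', h1, h2, h3⟩
  · rw [h2] at hm
    cases hm
  · rw [h1] at hm
    cases hm
    exact ⟨h2, h3⟩

/-- `1` for the placements of colour `k`, `-1` for the placements of the other colour, `0` for the passes -/
def sg (c : ℕ → Bool) (m : ℕ → Option V) (k : Bool) (i : ℕ) : ℤ :=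
  match m i with
  | none => 0
  | some _ => if c i = k then 1 else -1

theorem sg_none {k : Bool} {i : ℕ} (h : m i = none) : sg c m k i = 0 := by
  unfold sg
  rw [h]

theorem sg_pos {k : Bool} {i : ℕ} {e : V} (h : m i = some e) (hc : c i = k) : sg c m k i = 1 := by
  unfold sg
  rw [h]
  exact if_pos hc

theorem sg_neg {k : Bool} {i : ℕ} {e : V} (h : m i = some e) (hc : c i ≠ k) : sg c m k i = -1 := by
  unfold sg
  rw [h]
  exact if_neg hc

theorem sg_not (k : Bool) (i : ℕ) : sg c m (!k) i = -sg c m k i := by
  cases hm : m i with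
  | none => rw [sg_none hm, sg_none hm, neg_zero]
  | some e =>
    by_cases hc : c i = k
    · rw [sg_pos hm hc, sg_neg hm (by rw [hc]; exact (bne_c k).symm)]
    · rw [sg_neg hm hc, sg_pos hm (bool_cases hc), neg_neg]

variable [Finite V]

/-- one step: if the colour `k` captures exactly one stone at each placement and the numbers of placements are equal, the other
colour always plays in an eye of the colour `k` -/
theorem eyes_step (h : Closed G n P c m) (k : Bool) (hs : ∑ i ∈ Finset.range n, sg c m k i = 0)
    (hone : ∀ i < n, m i ≠ none → c i = k → ∃ u, P i u = some (!k) ∧ P (i + 1) u = none ∧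
      ∀ v, P i v = some (!k) → v ≠ u → P (i + 1) v = some (!k)) :
    ∀ i < n, ∀ e, m i = some e → c i = !k → e ∈ eyes G (P i) k := by
  have h1 := tele n (fun i => -((eyes G (P i) k).ncard : ℤ)) (fun i => sg c m (!k) i) ?_ ?_ ?_
  · intro i hi e hm hc
    have h2 := h1.1 i hi
    rw [sg_pos hm hc] at h2
    obtain ⟨he, hP⟩ := place_of h hi hm
    have h4 : k = !(c i) := by rw [hc, Bool.not_not]
    rw [h4]
    apply eye_eq he
    rw [← hP, ← h4]
    have h5 : -((eyes G (P (i + 1)) k).ncard : ℤ) = -((eyes G (P i) k).ncard : ℤ) + 1 := h2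
    omega
  · intro i hi
    cases hm : m i with
    | none =>
      rcases h.1 i hi with ⟨-, h2⟩ | ⟨e, h2, -⟩
      · rw [h2, sg_none hm, add_zero]
      · rw [hm] at h2
        cases h2
    | some e =>
      obtain ⟨he, hP⟩ := place_of h hi hm
      have hmn : m i ≠ none := by
        rw [hm]
        exact Option.some_ne_none _
      have hA := alive_of h hi hmn hi.le
      by_cases hc : c i = k
      · rw [sg_neg hm (by rw [hc]; exact (bne_c k).symm)]
        obtain ⟨u, hu, hu', hun⟩ := hone i hi hmn hc
        rw [hP, hc] at hu' hun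
        have h4 := eye_up hA he hu hu' hun
        rw [← hc, ← hP, hc] at h4
        omega
      · have h4 : k = !(c i) := bool_cases (fun h => hc h.symm)
        rw [sg_pos hm (by rw [h4, Bool.not_not])]
        have h5 := eye_down (G := G) (c := c i) he
        rw [← hP, ← h4] at h5
        omega
  · rw [h.2]
  · have : ∑ i ∈ Finset.range n, sg c m (!k) i = -∑ i ∈ Finset.range n, sg c m k i := by
      rw [← Finset.sum_neg_distrib]
      exact Finset.sum_congr rfl fun i _ => sg_not k i
    rw [this, hs, neg_zero]

/-- one step: counting the stones of colour `k`, if the other colour always captures -/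
theorem count_step (h : Closed G n P c m) (k : Bool) (hs : ∑ i ∈ Finset.range n, sg c m k i ≤ 0)
    (hcap : ∀ i < n, m i ≠ none → c i = !k → ∃ v, P i v = some k ∧ P (i + 1) v = none) :
    ∑ i ∈ Finset.range n, sg c m k i = 0 ∧
    (∀ i < n, m i ≠ none → c i = !k → ∃ u, P i u = some k ∧ P (i + 1) u = none ∧
      ∀ v, P i v = some k → v ≠ u → P (i + 1) v = some k) ∧
    ∀ i < n, ∀ e, m i = some e → c i = k → ∀ v, (v = e ∨ P i v = some k) → P (i + 1) v = some k := by
  have h1 := tele n (fun i => ((stones (P i) k).ncard : ℤ)) (fun i => sg c m k i) ?_ ?_ hs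
  · refine ⟨h1.2, ?_, ?_⟩
    · intro i hi hmn hc
      obtain ⟨e, hm⟩ := Option.ne_none_iff_exists'.1 hmn
      have h2 := h1.1 i hi
      obtain ⟨he, hP⟩ := place_of h hi hm
      have h4 : k = !(c i) := by rw [hc, Bool.not_not]
      rw [sg_neg hm (by rw [hc]; exact bne_c k)] at h2
      have h5 : ((stones (P (i + 1)) k).ncard : ℤ) = ((stones (P i) k).ncard : ℤ) + -1 := h2
      have h6 : (stones (play G (P i) (c i) e) (!(c i))).ncard + 1 = (stones (P i) (!(c i))).ncard := by
        rw [← hP, ← h4]
        omega
      have h7 := opp_eq he h6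
      rw [← hP, ← h4] at h7
      exact h7
    · intro i hi e hm hc
      have h2 := h1.1 i hi
      obtain ⟨he, hP⟩ := place_of h hi hm
      rw [sg_pos hm hc] at h2
      have h5 : ((stones (P (i + 1)) k).ncard : ℤ) = ((stones (P i) k).ncard : ℤ) + 1 := h2
      have h6 : (stones (play G (P i) (c i) e) (c i)).ncard = (stones (P i) (c i)).ncard + 1 := by
        rw [← hP, hc]
        omega
      intro v hv
      have h7 := own_eq h6 (v := v) (by rw [hc]; exact hv)
      rw [← hP, hc] at h7
      exact h7
  · intro i hi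
    cases hm : m i with
    | none =>
      rcases h.1 i hi with ⟨-, h2⟩ | ⟨e, h2, -⟩
      · rw [h2, sg_none hm, add_zero]
      · rw [hm] at h2
        cases h2
    | some e =>
      obtain ⟨he, hP⟩ := place_of h hi hm
      have hmn : m i ≠ none := by
        rw [hm]
        exact Option.some_ne_none _
      by_cases hc : c i = k
      · have h5 := own_le (G := G) (P := P i) (c := c i) (e := e)
        rw [← hP, hc] at h5
        rw [sg_pos hm hc]
        omega
      · have h4 : k = !(c i) := bool_cases (fun h => hc h.symm)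
        obtain ⟨v, hv, hv'⟩ := hcap i hi hmn (by rw [h4, Bool.not_not])
        rw [hP] at hv'
        have h5 := opp_lt (G := G) (c := c i) (e := e) (by rw [hv, h4]) hv'
        rw [← hP, ← h4] at h5
        rw [sg_neg hm hc]
        omega
  · rw [h.2]

/-- Closed sequences in which White always captures and Black does not make more placements than White consist of ko
captures. -/
theorem main_sum (h : Closed G n P c m) (hs : ∑ i ∈ Finset.range n, sg c m true i ≤ 0)
    (hcap : ∀ i < n, m i ≠ none → c i = false → ∃ v, P i v = some true ∧ P (i + 1) v = none) :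
    ∑ i ∈ Finset.range n, sg c m true i = 0 ∧ ∀ i < n, ∀ e, m i = some e → KoCapture G (P i) (c i) e := by
  obtain ⟨s1, s2, s3⟩ := count_step h true hs hcap
  have s5 : ∑ i ∈ Finset.range n, sg c m false i = 0 := by
    have : ∀ i, sg c m false i = -sg c m true i := fun i => sg_not true i
    simp only [this, Finset.sum_neg_distrib, s1, neg_zero]
  have s4 : ∀ i < n, ∀ e, m i = some e → c i = true → e ∈ eyes G (P i) false := eyes_step h false s5 s2
  have s6 : ∀ i < n, m i ≠ none → c i = !false → ∃ v, P i v = some false ∧ P (i + 1) v = none := by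
    intro i hi hmn hc
    have hc' : c i = true := hc
    obtain ⟨e, hm⟩ := Option.ne_none_iff_exists'.1 hmn
    obtain ⟨he, hP⟩ := place_of h hi hm
    have h1 := s4 i hi e hm hc'
    have h2 : P (i + 1) e = some true := s3 i hi e hm hc' _ (Or.inl rfl)
    by_contra hcon
    simp only [not_exists, not_and] at hcon
    have hA : Alive G (P (i + 1)) := by
      rw [hP]
      exact alive_play _ _ _
    obtain ⟨a, x, ha, hax, hx⟩ := hA e (by rw [h2]; exact Option.some_ne_none _)
    have hnb : ∀ w, G.Adj e w → P (i + 1) w = some false := by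
      intro w hw
      have h3 := h1.2 w hw
      have h4 := hcon w h3
      obtain ⟨d, hd⟩ := Option.ne_none_iff_exists'.1 h4
      cases d with
      | false => exact hd
      | true =>
        exfalso
        rw [hP, hc'] at hd
        rcases own_of hd with h5 | h5
        · exact hw.ne' h5
        · rw [h3] at h5
          cases h5
    have hae : a = e := by
      rcases Relation.ReflTransGen.cases_head ha with h3 | ⟨b, hb, -⟩
      · exact h3.symm
      · exfalso
        have h3 := hb.2
        rw [h2, hnb b hb.1] at h3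
        cases h3
    subst hae
    rw [hnb x hax] at hx
    cases hx
  obtain ⟨-, t2, t3⟩ := count_step h false s5.le s6
  have t4 : ∀ i < n, ∀ e, m i = some e → c i = !true → e ∈ eyes G (P i) true := eyes_step h true s1 t2
  refine ⟨s1, ?_⟩
  intro i hi e hm
  obtain ⟨he, hP⟩ := place_of h hi hm
  have hmn : m i ≠ none := by
    rw [hm]
    exact Option.some_ne_none _
  have hA := alive_of h hi hmn hi.le
  cases hc : c i with
  | true =>
    obtain ⟨u, hu, hu', hun⟩ := t2 i hi hmn hc
    rw [hP, hc] at hu' hun
    exact ko_of hA he (s4 i hi e hm hc).2 hu hu' hun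
  | false =>
    obtain ⟨u, hu, hu', hun⟩ := s2 i hi hmn hc
    rw [hP, hc] at hu' hun
    exact ko_of hA he (t4 i hi e hm hc).2 hu hu' hun

omit [Finite V] in
theorem sum_sg (k : Bool) (n : ℕ) : ∑ i ∈ Finset.range n, sg c m k i =
    (({i | i < n ∧ m i ≠ none ∧ c i = k} : Set ℕ).ncard : ℤ) - ({i | i < n ∧ m i ≠ none ∧ c i = !k} : Set ℕ).ncard := by
  classical
  have h1 : ∀ i, sg c m k i = (if m i ≠ none ∧ c i = k then 1 else 0) - (if m i ≠ none ∧ c i = !k then 1 else 0) := by
    intro i
    cases hm : m i with
    | none => rw [sg_none hm]; simp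
    | some e =>
      by_cases hc : c i = k
      · rw [sg_pos hm hc, if_pos ⟨Option.some_ne_none _, hc⟩, if_neg, sub_zero]
        rintro ⟨-, h2⟩
        rw [hc] at h2
        exact bne_c k h2.symm
      · rw [sg_neg hm hc, if_neg, if_pos ⟨Option.some_ne_none _, bool_cases hc⟩, zero_sub]
        rintro ⟨-, h2⟩
        exact hc h2
  have h2 : ∀ k : Bool, ((({i | i < n ∧ m i ≠ none ∧ c i = k} : Set ℕ).ncard : ℕ) : ℤ) =
      ∑ i ∈ Finset.range n, if m i ≠ none ∧ c i = k then 1 else 0 := by
    intro k
    have h3 : ({i | i < n ∧ m i ≠ none ∧ c i = k} : Set ℕ) =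
        (((Finset.range n).filter fun i => m i ≠ none ∧ c i = k : Finset ℕ) : Set ℕ) := by
      ext i
      simp
    rw [h3, Set.ncard_coe_finset, Finset.sum_boole]
  rw [h2, h2, ← Finset.sum_sub_distrib]
  exact Finset.sum_congr rfl fun i _ => h1 i

theorem main (h : Closed G n P c m)
    (hb : ({i | i < n ∧ m i ≠ none ∧ c i = true} : Set ℕ).ncard ≤ ({i | i < n ∧ m i ≠ none ∧ c i = false} : Set ℕ).ncard)
    (hcap : ∀ i < n, m i ≠ none → c i = false → ∃ v, P i v = some true ∧ P (i + 1) v = none) :
    ({i | i < n ∧ m i ≠ none ∧ c i = true} : Set ℕ).ncard = ({i | i < n ∧ m i ≠ none ∧ c i = false} : Set ℕ).ncard ∧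
      ∀ i < n, ∀ e, m i = some e → KoCapture G (P i) (c i) e := by
  have hs : ∑ i ∈ Finset.range n, sg c m true i ≤ 0 := by
    rw [sum_sg]
    simp only [Bool.not_true]
    omega
  obtain ⟨h1, h2⟩ := main_sum h hs hcap
  rw [sum_sg] at h1
  simp only [Bool.not_true] at h1
  exact ⟨by omega, h2⟩

end

end Pool.Agent.Helper19.SK
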