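import Mathlib

/-!
# MP_c2d095: definitions used in the statements (Go on a finite graph, forced play, superko)
-/

set_option autoImplicit false

namespace Pool.Agent.Helper19.SK

/-! ## Go -/

/-- A position on the board with set of points `V`: `none` is an empty point, `some true` a Black stone and `some false` a
White stone. -/
abbrev Pos (V : Type) : Type := V → Option Bool

/-- `w` is reached from `v` through adjacent points with the same content (if there is a stone on `v`: `w` is in its chain) -/
def Chain {V : Type} (G : SimpleGraph V) (P : Pos V) (v w : V) : Prop :=
  Relation.ReflTransGen (fun a b => G.Adj a b ∧ P a = P b) v w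

/-- some point of the chain of `v` is adjacent to an empty point -/
def Lib {V : Type} (G : SimpleGraph V) (P : Pos V) (v : V) : Prop :=
  ∃ w u, Chain G P v w ∧ G.Adj w u ∧ P u = none

open Classical in
/-- remove the stones of colour `c` whose chain has no adjacent empty point -/
noncomputable def clear {V : Type} (G : SimpleGraph V) (c : Bool) (P : Pos V) : Pos V :=
  fun v => if P v = some c ∧ ¬ Lib G P v then none else P v

open Classical in
/-- the content of the point `e` is changed to `x` -/
noncomputable def put {V : Type} (P : Pos V) (e : V) (x : Option Bool) : Pos V := fun v => if v = e then x else P v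

/-- the position after a stone of colour `c` is placed on the point `e`: chains of the other colour without adjacent empty
point are removed first, then chains of colour `c` without adjacent empty point -/
noncomputable def play {V : Type} (G : SimpleGraph V) (P : Pos V) (c : Bool) (e : V) : Pos V :=
  clear G c (clear G (!c) (put P e (some c)))

/-- The placement of a stone of colour `c` on the empty point `e` of `P` is a ko capture: it removes exactly one stone, on a
point `u` adjacent to `e`; all neighbours of `e` are occupied by the other colour before the placement; all neighbours of `u`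
are occupied by the colour `c` after it; and the position `P` comes back when the other colour is placed on `u`. -/
def KoCapture {V : Type} (G : SimpleGraph V) (P : Pos V) (c : Bool) (e : V) : Prop :=
  P e = none ∧ ∃ u, G.Adj e u ∧ P u = some (!c) ∧ play G P c e = put (put P e (some c)) u none ∧
    (∀ w, G.Adj e w → P w = some (!c)) ∧ (∀ w, G.Adj u w → play G P c e w = some c) ∧
    play G (play G P c e) (!c) u = P

/-- `P 0, P 1, …, P n = P 0` is a closed sequence of positions: if `m i = none`, the `i`-th move is a pass and
`P (i + 1) = P i`; if `m i = some e`, then `P (i + 1)` is the position after a stone of colour `c i` is placed on the empty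
point `e` of `P i`. -/
def Closed {V : Type} (G : SimpleGraph V) (n : ℕ) (P : ℕ → Pos V) (c : ℕ → Bool) (m : ℕ → Option V) : Prop :=
  (∀ i < n, (m i = none ∧ P (i + 1) = P i) ∨ ∃ e, m i = some e ∧ P i e = none ∧ P (i + 1) = play G (P i) (c i) e) ∧ P n = P 0

/-! ## Forced play -/

/-- A state of the game: the position and the colour of the player to move (`true` is Black) -/
abbrev State (V : Type) : Type := Pos V × Bool

/-- The moves from the state `s` to the state `t`, when `A` describes the allowed moves (`A P c (some e)`: in the position
`P`, a stone of colour `c` may be placed on the point `e`; `A P c none`: the player with the colour `c` may pass): the player to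
move passes or places a stone of his colour on an empty point. -/
def Mv {V : Type} (G : SimpleGraph V) (A : Pos V → Bool → Option V → Prop) (s t : State V) : Prop :=
  (A s.1 s.2 none ∧ t = (s.1, !s.2)) ∨ ∃ e, s.1 e = none ∧ A s.1 s.2 (some e) ∧ t = (play G s.1 s.2 e, !s.2)

/-- the moves which change the position (passes and suicides of a single stone do not) -/
def MvP {V : Type} (G : SimpleGraph V) (A : Pos V → Bool → Option V → Prop) (s t : State V) : Prop :=
  Mv G A s t ∧ t.1 ≠ s.1

/-- if a ko capture is allowed, then it is allowed to take it back -/
def Retake {V : Type} (G : SimpleGraph V) (A : Pos V → Bool → Option V → Prop) : Prop :=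
  ∀ P c e u, A P c (some e) → KoCapture G P c e → P u ≠ none → play G P c e u = none → A (play G P c e) (!c) (some u)

/-- White may not pass and may only play captures, and if a ko capture is allowed then it is allowed to take it back. -/
def Forced {V : Type} (G : SimpleGraph V) (A : Pos V → Bool → Option V → Prop) : Prop :=
  (∀ P, ¬ A P false none) ∧
    (∀ P e, P e = none → A P false (some e) → ∃ v, P v = some true ∧ play G P false e v = none) ∧ Retake G A

/-- White may not pass and may only play captures of exactly one stone, and if a ko capture is allowed then it is allowed to
take it back. -/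
def ForcedOne {V : Type} (G : SimpleGraph V) (A : Pos V → Bool → Option V → Prop) : Prop :=
  (∀ P, ¬ A P false none) ∧
    (∀ P e, P e = none → A P false (some e) → ∃! v, P v = some true ∧ play G P false e v = none) ∧ Retake G A

/-- The graph of the allowed ko captures on the states of the game. -/
def KoGraph {V : Type} (G : SimpleGraph V) (A : Pos V → Bool → Option V → Prop) : SimpleGraph (State V) where
  Adj s t := s ≠ t ∧ ((∃ e, A s.1 s.2 (some e) ∧ KoCapture G s.1 s.2 e ∧ t = (play G s.1 s.2 e, !s.2)) ∨
    ∃ e, A t.1 t.2 (some e) ∧ KoCapture G t.1 t.2 e ∧ s = (play G t.1 t.2 e, !t.2))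
  symm := ⟨fun _ _ h => ⟨h.1.symm, h.2.symm⟩⟩
  loopless := ⟨fun _ h => h.1 rfl⟩

/-! ## Games without repetitions, and matchings -/

/-- The player to move in the state `s` wins, when the keys in `H` have occurred (`κ s` is one of them): he can move to a
state `t` whose key `κ t` has not occurred such that the other player, to move in `t`, does not win. A player without such a
move loses. -/
def Wins {S K : Type} [Finite K] (M : S → S → Prop) (κ : S → K) (H : Set K) (s : S) : Prop :=
  ∃ t, M s t ∧ ∃ _ : κ t ∉ H, ¬ Wins M κ (insert (κ t) H) t
termination_by (Hᶜ).ncard
decreasing_by
  apply Set.ncard_lt_ncard _ (Set.toFinite _)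
  refine ⟨fun x hx hxH => hx (Or.inr hxH), fun hcon => ?_⟩
  exact hcon (show κ t ∈ Hᶜ from by assumption) (Or.inl rfl)

/-- `m` is a maximum matching of the graph `K` without the vertices in `D` -/
def IsMax {S : Type} (K : SimpleGraph S) (D : Set S) (m : K.Subgraph) : Prop :=
  m.IsMatching ∧ Disjoint m.verts D ∧ ∀ m' : K.Subgraph, m'.IsMatching → Disjoint m'.verts D → m'.verts.ncard ≤ m.verts.ncard

/-- all maximum matchings of the graph `K` without the vertices in `D` cover the vertex `s` -/
def Essential {S : Type} (K : SimpleGraph S) (D : Set S) (s : S) : Prop := ∀ m : K.Subgraph, IsMax K D m → s ∈ m.verts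

/-- `B` is an exit set for the moves `M`, the undirected graph `W` on the states and the history `H₀`: `B` is the set of the
states `s` from which a move leads to a state `t` such that `s, t` are not adjacent in `W`, the key of `t` is not in `H₀`,
`t ∉ B`, and `t` is not essential in the graph `W` without `B` and without the states with key in `H₀`. -/
def ExitSet {S K : Type} (M : S → S → Prop) (W : SimpleGraph S) (κ : S → K) (H₀ : Set K) (B : Set S) : Prop :=
  ∀ s, s ∈ B ↔ ∃ t, M s t ∧ ¬ W.Adj s t ∧ κ t ∉ H₀ ∧ t ∉ B ∧ ¬ Essential W (B ∪ κ ⁻¹' H₀) t

end Pool.Agent.Helper19.SK
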