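import Pool.Agent.Helper19.SK.Geo

/-!
# Games in which no state may be repeated: solution by matchings when all cycles are undirected
-/

set_option autoImplicit false

namespace Pool.Agent.Helper19.SK

/-- The states `s` from which the player to move wins by a move which cannot be taken back. -/
def ExitSet0 {S K : Type} (M : S → S → Prop) (κ : S → K) (H₀ : Set K) (B : Set S) : Prop :=
  ∀ s, s ∈ B ↔ ∃ t, M s t ∧ ¬ M t s ∧ κ t ∉ H₀ ∧ t ∉ B ∧ ¬ Essential (Und M) (B ∪ κ ⁻¹' H₀) t

/-- `t` is reached from `s` by moves -/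
abbrev Reach {S : Type} (M : S → S → Prop) : S → S → Prop := Relation.ReflTransGen M

section
variable {S K : Type} [Finite K] {M : S → S → Prop} {κ : S → K}

theorem wins_iff (H : Set K) (s : S) : Wins M κ H s ↔ ∃ t, M s t ∧ κ t ∉ H ∧ ¬ Wins M κ (insert (κ t) H) t := by
  rw [Wins]
  simp only [exists_prop]

theorem compl_lt {H : Set K} {x : K} (hx : x ∉ H) : ((insert x H)ᶜ).ncard < (Hᶜ).ncard := by
  apply Set.ncard_lt_ncard _ (Set.toFinite _)
  refine ⟨fun y hy hyH => hy (Or.inr hyH), fun hcon => ?_⟩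
  exact hcon (show x ∈ Hᶜ from hx) (Or.inl rfl)

/-- only the keys of reachable states matter -/
theorem wins_congr : ∀ (n : ℕ) (H H' : Set K) (s : S), (Hᶜ).ncard ≤ n →
    (∀ t, Reach M s t → (κ t ∈ H ↔ κ t ∈ H')) → (Wins M κ H s ↔ Wins M κ H' s) := by
  intro n
  induction n with
  | zero =>
    intro H H' s hn hH
    rw [wins_iff, wins_iff]
    constructor
    · rintro ⟨t, h1, h2, -⟩
      have := compl_lt h2
      omega
    · rintro ⟨t, h1, h2, -⟩
      have h3 : κ t ∉ H := fun h => h2 ((hH t (Relation.ReflTransGen.single h1)).1 h)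
      have := compl_lt h3
      omega
  | succ n ih =>
    intro H H' s hn hH
    rw [wins_iff, wins_iff]
    have key : ∀ t, M s t → κ t ∉ H → (Wins M κ (insert (κ t) H) t ↔ Wins M κ (insert (κ t) H') t) := by
      intro t h1 h2
      apply ih
      · have := compl_lt h2
        omega
      · intro u hu
        have h3 := hH u (Relation.ReflTransGen.head h1 hu)
        simp only [Set.mem_insert_iff, h3]
    constructor
    · rintro ⟨t, h1, h2, h3⟩
      refine ⟨t, h1, fun h => h2 ((hH t (Relation.ReflTransGen.single h1)).2 h), fun h => h3 ((key t h1 h2).2 h)⟩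
    · rintro ⟨t, h1, h2, h3⟩
      have h4 : κ t ∉ H := fun h => h2 ((hH t (Relation.ReflTransGen.single h1)).1 h)
      exact ⟨t, h1, h4, fun h => h3 ((key t h1 h4).1 h)⟩

/-- the semantic version of the exit set at the state `s` -/
def SemExit (M : S → S → Prop) (κ : S → K) (H₀ : Set K) (B : Set S) (s : S) : Prop :=
  s ∈ B ↔ ∃ t, M s t ∧ ¬ M t s ∧ κ t ∉ H₀ ∧ ¬ Wins M κ (insert (κ t) H₀) t

/-- hypotheses: moves in cycles can be taken back, and keys are not repeated -/
structure Cyc (M : S → S → Prop) (κ : S → K) : Prop where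
  irr : ∀ a, ¬ M a a
  undo : ∀ a b, M a b → Reach M b a → M b a
  key : ∀ a b, Reach M a b → κ a = κ b → a = b

variable [Finite S]

/-- the main claim: `F` is the set of the states which have occurred -/
theorem claim (hC : Cyc M κ) (H₀ : Set K) (B : Set S) : ∀ (n : ℕ) (F : Set S) (s : S), (Fᶜ).ncard = n → s ∈ F →
    (∀ f ∈ F, Reach M f s) → (∀ s', Reach M s s' → Reach M s' s → SemExit M κ H₀ B s') → κ s ∉ H₀ →
    (Wins M κ (H₀ ∪ κ '' F) s ↔ s ∈ B ∨ Essential (Und M) (B ∪ κ ⁻¹' H₀ ∪ (F \ {s})) s) := by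
  intro n
  induction n using Nat.strong_induction_on with
  | _ n ih =>
    intro F s hn hs hF hE hs0
    have hsE := hE s Relation.ReflTransGen.refl Relation.ReflTransGen.refl
    unfold SemExit at hsE
    set D : Set S := B ∪ κ ⁻¹' H₀ ∪ (F \ {s}) with hD
    have hDF : insert s D = B ∪ κ ⁻¹' H₀ ∪ F := by
      rw [hD]
      ext x
      simp only [Set.mem_insert_iff, Set.mem_union, Set.mem_sdiff, Set.mem_singleton_iff]
      constructor
      · rintro (rfl | h | ⟨h, -⟩)
        · exact Or.inr hs
        · exact Or.inl h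
        · exact Or.inr h
      · rintro (h | h)
        · exact Or.inr (Or.inl h)
        · by_cases hx : x = s
          · exact Or.inl hx
          · exact Or.inr (Or.inr ⟨h, hx⟩)
    have f0 : ∀ t, M s t → κ t ∈ κ '' F → t ∈ F := by
      rintro t ht ⟨f, hf, hft⟩
      have := hC.key f t ((hF f hf).tail ht) hft
      rwa [← this]
    have f1 : ∀ t, insert (κ t) (H₀ ∪ κ '' F) = H₀ ∪ κ '' (insert t F) := by
      intro t
      rw [Set.image_insert_eq, Set.union_insert]
    -- moves which cannot be taken back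
    have hexit : (∃ t, M s t ∧ ¬ M t s ∧ κ t ∉ H₀ ∪ κ '' F ∧ ¬ Wins M κ (insert (κ t) (H₀ ∪ κ '' F)) t) ↔ s ∈ B := by
      rw [hsE]
      apply exists_congr
      intro t
      constructor
      · rintro ⟨h1, h2, h3, h4⟩
        refine ⟨h1, h2, fun h => h3 (Or.inl h), fun h => h4 ?_⟩
        rw [f1]
        refine (wins_congr _ _ _ _ le_rfl ?_).2 h
        intro u hu
        constructor
        · rintro (hu1 | ⟨f, hf, hfu⟩)
          · exact Or.inr hu1
          · rcases hf with rfl | hf
            · exact Or.inl hfu.symm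
            · exfalso
              have h5 := hC.key f u (((hF f hf).tail h1).trans hu) hfu
              subst h5
              exact h2 (hC.undo s t h1 (hu.trans (hF f hf)))
        · rintro (hu1 | hu1)
          · exact Or.inr ⟨t, Or.inl rfl, hu1.symm⟩
          · exact Or.inl hu1
      · rintro ⟨h1, h2, h3, h4⟩
        have h5 : t ∉ F := fun h => h2 (hC.undo s t h1 (hF t h))
        refine ⟨h1, h2, fun h => h.elim h3 fun h => h5 (f0 t h1 h), fun h => h4 ?_⟩
        rw [f1] at h
        refine (wins_congr _ _ _ _ le_rfl ?_).1 h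
        intro u hu
        constructor
        · rintro (hu1 | ⟨f, hf, hfu⟩)
          · exact Or.inr hu1
          · rcases hf with rfl | hf
            · exact Or.inl hfu.symm
            · exfalso
              have h5 := hC.key f u (((hF f hf).tail h1).trans hu) hfu
              subst h5
              exact h2 (hC.undo s t h1 (hu.trans (hF f hf)))
        · rintro (hu1 | hu1)
          · exact Or.inr ⟨t, Or.inl rfl, hu1.symm⟩
          · exact Or.inl hu1
    -- moves which can be taken back
    have hund : s ∉ B → ((∃ t, M s t ∧ M t s ∧ κ t ∉ H₀ ∪ κ '' F ∧ ¬ Wins M κ (insert (κ t) (H₀ ∪ κ '' F)) t) ↔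
        ∃ t, (Und M).Adj s t ∧ t ∉ insert s D ∧ ¬ Essential (Und M) (insert s D) t) := by
      intro hsB
      apply exists_congr
      intro t
      have key : M s t → M t s → κ t ∉ H₀ → t ∉ F → (Wins M κ (insert (κ t) (H₀ ∪ κ '' F)) t ↔
          t ∈ B ∨ Essential (Und M) (insert s D) t) := by
        intro h1 h2 h3 h4
        have h5 := ih ((insert t F)ᶜ).ncard (by rw [← hn]; exact compl_lt h4) (insert t F) t rfl (Or.inl rfl)
          (by
            rintro f (rfl | hf)
            · exact Relation.ReflTransGen.refl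
            · exact (hF f hf).tail h1)
          (fun s' h6 h7 => hE s' (Relation.ReflTransGen.head h1 h6) (h7.tail h2)) h3
        have h6 : insert t F \ {t} = F := by
          ext x
          simp only [Set.mem_sdiff, Set.mem_insert_iff, Set.mem_singleton_iff]
          constructor
          · rintro ⟨h | h, h7⟩
            · exact absurd h h7
            · exact h
          · intro h
            exact ⟨Or.inr h, by rintro rfl; exact h4 h⟩
        rw [f1, h5, h6, hDF]
      constructor
      · rintro ⟨h1, h2, h3, h4⟩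
        have h5 : κ t ∉ H₀ := fun h => h3 (Or.inl h)
        have h6 : t ∉ F := fun h => h3 (Or.inr ⟨t, h, rfl⟩)
        have h7 := fun h => h4 ((key h1 h2 h5 h6).2 h)
        refine ⟨⟨?_, h1, h2⟩, ?_, fun h => h7 (Or.inr h)⟩
        · rintro rfl
          exact hC.irr _ h1
        · rw [hDF]
          rintro ((h8 | h8) | h8)
          · exact h7 (Or.inl h8)
          · exact h5 h8
          · exact h6 h8
      · rintro ⟨⟨h0, h1, h2⟩, h3, h4⟩
        rw [hDF] at h3
        have h5 : κ t ∉ H₀ := fun h => h3 (Or.inl (Or.inr h))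
        have h6 : t ∉ F := fun h => h3 (Or.inr h)
        have h7 : t ∉ B := fun h => h3 (Or.inl (Or.inl h))
        refine ⟨h1, h2, fun h => h.elim h5 fun h => h6 (f0 t h1 h), fun h => ?_⟩
        rcases (key h1 h2 h5 h6).1 h with h8 | h8
        · exact h7 h8
        · exact h4 h8
    rw [wins_iff]
    constructor
    · rintro ⟨t, h1, h2, h3⟩
      by_cases hts : M t s
      · by_cases hsB : s ∈ B
        · exact Or.inl hsB
        · right
          have hsD : s ∉ D := by
            rintro ((h | h) | h)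
            · exact hsB h
            · exact hs0 h
            · exact h.2 rfl
          rw [essential_iff hsD]
          exact (hund hsB).1 ⟨t, h1, hts, h2, h3⟩
      · exact Or.inl (hexit.1 ⟨t, h1, hts, h2, h3⟩)
    · intro h
      by_cases hsB : s ∈ B
      · obtain ⟨t, h1, -, h2, h3⟩ := hexit.2 hsB
        exact ⟨t, h1, h2, h3⟩
      · have hsD : s ∉ D := by
          rintro ((h | h) | h)
          · exact hsB h
          · exact hs0 h
          · exact h.2 rfl
        have h1 := h.resolve_left hsB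
        rw [essential_iff hsD] at h1
        obtain ⟨t, h2, -, h3, h4⟩ := (hund hsB).2 h1
        exact ⟨t, h2, h3, h4⟩

/-- the claim at the beginning of the game -/
theorem claim_start (hC : Cyc M κ) (H₀ : Set K) (B : Set S) (s : S)
    (hE : ∀ s', Reach M s s' → Reach M s' s → SemExit M κ H₀ B s') (hs0 : κ s ∉ H₀) :
    (Wins M κ (insert (κ s) H₀) s ↔ s ∈ B ∨ Essential (Und M) (B ∪ κ ⁻¹' H₀) s) := by
  have h := claim hC H₀ B _ {s} s rfl rfl (by rintro f rfl; exact Relation.ReflTransGen.refl) hE hs0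
  rw [Set.image_singleton, Set.union_singleton, sdiff_self] at h
  rw [h]
  simp

/-- every exit set solves the game -/
theorem exitSet_solves (hC : Cyc M κ) (H₀ : Set K) (B : Set S) (hB : ExitSet0 M κ H₀ B) :
    ∀ (n : ℕ) (s : S), {t | Reach M s t}.ncard = n → SemExit M κ H₀ B s := by
  intro n
  induction n using Nat.strong_induction_on with
  | _ n ih =>
    intro s hn
    unfold SemExit
    rw [hB s]
    apply exists_congr
    intro t
    have key : M s t → ¬ M t s → κ t ∉ H₀ → (Wins M κ (insert (κ t) H₀) t ↔ t ∈ B ∨ Essential (Und M) (B ∪ κ ⁻¹' H₀) t) := by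
      intro h1 h2 h3
      refine claim_start hC H₀ B t (fun s' h4 h5 => ?_) h3
      refine ih _ ?_ s' rfl
      rw [← hn]
      apply Set.ncard_lt_ncard _ (Set.toFinite _)
      refine ⟨fun u hu => Relation.ReflTransGen.head h1 (h4.trans hu), fun hcon => ?_⟩
      have h6 : Reach M s' s := hcon (show s ∈ {t | Reach M s t} from Relation.ReflTransGen.refl)
      exact h2 (hC.undo s t h1 (h4.trans h6))
    constructor
    · rintro ⟨h1, h2, h3, h4, h5⟩
      exact ⟨h1, h2, h3, fun h => ((key h1 h2 h3).1 h).elim h4 h5⟩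
    · rintro ⟨h1, h2, h3, h4⟩
      exact ⟨h1, h2, h3, fun h => h4 ((key h1 h2 h3).2 (Or.inl h)), fun h => h4 ((key h1 h2 h3).2 (Or.inr h))⟩

/-- The solution: exit sets exist, and each of them solves the game. -/
theorem solution (hC : Cyc M κ) (H₀ : Set K) : (∃ B, ExitSet0 M κ H₀ B) ∧ ∀ B, ExitSet0 M κ H₀ B → ∀ s, κ s ∉ H₀ →
    (Wins M κ (insert (κ s) H₀) s ↔ s ∈ B ∨ Essential (Und M) (B ∪ κ ⁻¹' H₀) s) := by
  constructor
  · set B : Set S := {s | ∃ t, M s t ∧ ¬ M t s ∧ κ t ∉ H₀ ∧ ¬ Wins M κ (insert (κ t) H₀) t} with hB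
    have hsem : ∀ s, SemExit M κ H₀ B s := fun s => Iff.rfl
    refine ⟨B, fun s => ?_⟩
    refine Iff.trans (hsem s) ?_
    apply exists_congr
    intro t
    have key : κ t ∉ H₀ → (Wins M κ (insert (κ t) H₀) t ↔ t ∈ B ∨ Essential (Und M) (B ∪ κ ⁻¹' H₀) t) :=
      fun h3 => claim_start hC H₀ B t (fun s' _ _ => hsem s') h3
    constructor
    · rintro ⟨h1, h2, h3, h4⟩
      exact ⟨h1, h2, h3, fun h => h4 ((key h3).2 (Or.inl h)), fun h => h4 ((key h3).2 (Or.inr h))⟩
    · rintro ⟨h1, h2, h3, h4, h5⟩
      exact ⟨h1, h2, h3, fun h => ((key h3).1 h).elim h4 h5⟩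
  · intro B hB s hs
    exact claim_start hC H₀ B s (fun s' _ _ => exitSet_solves hC H₀ B hB _ s' rfl) hs

/-- the solution in terms of a graph `W` which describes the moves which can be taken back -/
theorem solutionW (hC : Cyc M κ) (W : SimpleGraph S) (hW : ∀ s t, M s t → (W.Adj s t ↔ M t s)) (hW' : ∀ s t, W.Adj s t → M s t)
    (H₀ : Set K) : (∃ B, ExitSet M W κ H₀ B) ∧ ∀ B, ExitSet M W κ H₀ B → ∀ s, κ s ∉ H₀ →
    (Wins M κ (insert (κ s) H₀) s ↔ s ∈ B ∨ Essential W (B ∪ κ ⁻¹' H₀) s) := by
  have hWU : W = Und M := by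
    ext s t
    constructor
    · intro h
      exact ⟨h.ne, hW' s t h, hW' t s h.symm⟩
    · rintro ⟨-, h1, h2⟩
      exact (hW s t h1).2 h2
  have hE : ∀ B, ExitSet M W κ H₀ B ↔ ExitSet0 M κ H₀ B := by
    intro B
    unfold ExitSet ExitSet0
    apply forall_congr'
    intro s
    apply iff_congr Iff.rfl
    apply exists_congr
    intro t
    rw [← hWU]
    constructor
    · rintro ⟨h1, h2, h3⟩
      exact ⟨h1, fun h => h2 ((hW s t h1).2 h), h3⟩
    · rintro ⟨h1, h2, h3⟩
      exact ⟨h1, fun h => h2 ((hW s t h1).1 h), h3⟩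
  obtain ⟨⟨B, hB⟩, h2⟩ := solution hC H₀
  refine ⟨⟨B, (hE B).2 hB⟩, fun B hB s hs => ?_⟩
  rw [hWU]
  exact h2 B ((hE B).1 hB) s hs

end

end Pool.Agent.Helper19.SK
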