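import Pool.Agent.Helper19.SK.Defs

/-!
# Games in which no state may be repeated: the undirected case with exits
-/

set_option autoImplicit false

namespace Pool.Agent.Helper19.SK

/-- the undirected graph of the moves which can be played in both directions -/
def Und {S : Type} (M : S → S → Prop) : SimpleGraph S where
  Adj a b := a ≠ b ∧ M a b ∧ M b a
  symm := ⟨fun _ _ h => ⟨h.1.symm, h.2.2, h.2.1⟩⟩
  loopless := ⟨fun _ h => h.1 rfl⟩

section graph
variable {S : Type} {K : SimpleGraph S}

theorem exists_max [Finite S] (K : SimpleGraph S) (D : Set S) : ∃ m : K.Subgraph, IsMax K D m := by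
  classical
  let T : Set ℕ := {k | ∃ m : K.Subgraph, m.IsMatching ∧ Disjoint m.verts D ∧ m.verts.ncard = k}
  have hne : T.Nonempty := ⟨_, ⊥, by intro v hv; exact absurd hv (by simp), by simp, rfl⟩
  have hbdd : BddAbove T := ⟨Nat.card S, by
    rintro k ⟨m, -, -, rfl⟩
    exact Set.ncard_le_card _⟩
  obtain ⟨m, h1, h2, h3⟩ := Nat.sSup_mem hne hbdd
  exact ⟨m, h1, h2, fun m' h4 h5 => by rw [h3]; exact le_csSup hbdd ⟨m', h4, h5, rfl⟩⟩

/-- removing an edge of a matching -/
theorem remove_edge {m : K.Subgraph} (hm : m.IsMatching) {s t : S} (hst : m.Adj s t) :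
    ∃ m' : K.Subgraph, m'.IsMatching ∧ m'.verts = m.verts \ {s, t} := by
  refine ⟨m.deleteVerts {s, t}, ?_, rfl⟩
  intro v hv
  have hv1 : v ∈ m.verts := hv.1
  have hv2 : v ∉ ({s, t} : Set S) := hv.2
  obtain ⟨w, hw, hu⟩ := hm hv1
  have hw2 : w ∉ ({s, t} : Set S) := by
    rintro (rfl | hwt)
    · exact hv2 (Or.inr (hm.eq_of_adj_left hw.symm hst))
    · have : w = t := hwt
      subst this
      exact hv2 (Or.inl (hm.eq_of_adj_right hw hst))
  refine ⟨w, ?_, ?_⟩
  · change (m.deleteVerts {s, t}).Adj v w
    rw [SimpleGraph.Subgraph.deleteVerts_adj]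
    exact ⟨hv1, hv2, m.edge_vert hw.symm, hw2, hw⟩
  · intro y hy
    change (m.deleteVerts {s, t}).Adj v y at hy
    rw [SimpleGraph.Subgraph.deleteVerts_adj] at hy
    exact hu y hy.2.2.2.2

/-- adding an edge to a matching -/
theorem add_edge {m : K.Subgraph} (hm : m.IsMatching) {s t : S} (hst : K.Adj s t) (hs : s ∉ m.verts) (ht : t ∉ m.verts) :
    ∃ m' : K.Subgraph, m'.IsMatching ∧ m'.verts = m.verts ∪ {s, t} := by
  refine ⟨m ⊔ K.subgraphOfAdj hst, hm.sup (SimpleGraph.Subgraph.IsMatching.subgraphOfAdj hst) ?_, ?_⟩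
  · rw [hm.support_eq_verts, (SimpleGraph.Subgraph.IsMatching.subgraphOfAdj hst).support_eq_verts,
      SimpleGraph.subgraphOfAdj_verts]
    rw [Set.disjoint_left]
    rintro x hx (rfl | hxt)
    · exact hs hx
    · have : x = t := hxt
      subst this
      exact ht hx
  · rw [SimpleGraph.Subgraph.verts_sup, SimpleGraph.subgraphOfAdj_verts]

theorem even_verts [Finite S] {m : K.Subgraph} (hm : m.IsMatching) : Even m.verts.ncard := by
  classical
  have : Fintype m.verts := Fintype.ofFinite _
  rw [Set.ncard_eq_toFinset_card']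
  exact hm.even_card

/-- One step of the game on an undirected graph. -/
theorem essential_iff [Finite S] {D : Set S} {s : S} (hs : s ∉ D) :
    Essential K D s ↔ ∃ t, K.Adj s t ∧ t ∉ insert s D ∧ ¬ Essential K (insert s D) t := by
  constructor
  · intro hE
    obtain ⟨m, hm1, hm2, hm3⟩ := exists_max K D
    have hsm := hE m ⟨hm1, hm2, hm3⟩
    obtain ⟨t, hst, -⟩ := hm1 hsm
    have htm : t ∈ m.verts := m.edge_vert hst.symm
    have htD : t ∉ D := fun h => Set.disjoint_left.1 hm2 htm h
    have hst' : K.Adj s t := m.adj_sub hst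
    have hne : t ≠ s := hst'.ne'
    obtain ⟨m', h1, h2⟩ := remove_edge hm1 hst
    refine ⟨t, hst', fun h => ?_, fun hcon => ?_⟩
    · rcases h with h | h
      · exact hne h
      · exact htD h
    · have h3 : m'.verts.ncard + 2 = m.verts.ncard := by
        rw [h2, Set.ncard_sdiff (by rintro x (rfl | hx); exacts [hsm, by rw [hx]; exact htm]) (Set.toFinite _),
          Set.ncard_pair hne.symm]
        have h4 : ({s, t} : Set S).ncard ≤ m.verts.ncard :=
          Set.ncard_le_ncard (by rintro x (rfl | hx); exacts [hsm, by rw [hx]; exact htm]) (Set.toFinite _)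
        rw [Set.ncard_pair hne.symm] at h4
        omega
      have h5 : IsMax K (insert s D) m' := by
        refine ⟨h1, ?_, ?_⟩
        · rw [Set.disjoint_left, h2]
          rintro x ⟨hx1, hx2⟩ hx3
          rcases hx3 with rfl | hx3
          · exact hx2 (Or.inl rfl)
          · exact Set.disjoint_left.1 hm2 hx1 hx3
        · intro m'' h6 h7
          have h8 : Disjoint m''.verts D := h7.mono_right (Set.subset_insert _ _)
          have h9 : s ∉ m''.verts := fun h => Set.disjoint_left.1 h7 h (Or.inl rfl)
          have h10 := hm3 m'' h6 h8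
          have h11 : m''.verts.ncard ≠ m.verts.ncard := by
            intro heq
            exact h9 (hE m'' ⟨h6, h8, fun m3 h12 h13 => by rw [heq]; exact hm3 m3 h12 h13⟩)
          obtain ⟨a, ha⟩ := even_verts h6
          obtain ⟨b, hb⟩ := even_verts hm1
          omega
      have h6 := hcon m' h5
      rw [h2] at h6
      exact h6.2 (Or.inr rfl)
  · rintro ⟨t, hst, ht, hE⟩ m hm
    by_contra hsm
    apply hE
    intro m' hm'
    by_contra htm
    have hmD : Disjoint m'.verts D := hm'.2.1.mono_right (Set.subset_insert _ _)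
    have hsm' : s ∉ m'.verts := fun h => Set.disjoint_left.1 hm'.2.1 h (Or.inl rfl)
    obtain ⟨m2, h1, h2⟩ := add_edge hm'.1 hst hsm' htm
    have h3 : m2.verts.ncard = m'.verts.ncard + 2 := by
      rw [h2, Set.ncard_union_eq, Set.ncard_pair hst.ne]
      rw [Set.disjoint_left]
      rintro x hx (rfl | hxt)
      · exact hsm' hx
      · have : x = t := hxt
        subst this
        exact htm hx
    have h4 : Disjoint m2.verts D := by
      rw [h2, Set.disjoint_left]
      rintro x (hx | rfl | hx) hxD
      · exact Set.disjoint_left.1 hmD hx hxD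
      · exact hs hxD
      · have : x = t := hx
        subst this
        exact ht (Or.inr hxD)
    have h5 := hm.2.2 m2 h1 h4
    have h6 : Disjoint m.verts (insert s D) := by
      rw [Set.disjoint_left]
      rintro x hx (rfl | hxD)
      · exact hsm hx
      · exact Set.disjoint_left.1 hm.2.1 hx hxD
    have h7 := hm'.2.2 m hm.1 h6
    omega

end graph

end Pool.Agent.Helper19.SK
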