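import Pool.Agent.Helper19.SK.Basic

/-!
# Go on a finite graph: ko captures, counting
-/

set_option autoImplicit false

namespace Pool.Agent.Helper19.SK

section
variable {V : Type} {G : SimpleGraph V}

theorem clear_alive {P : Pos V} (hA : Alive G P) (c : Bool) : clear G c P = P := by
  funext v
  by_cases h : P v = none
  · rw [clear_none h, h]
  · exact clear_lib (hA v h)

theorem bool_cases {d c : Bool} (h : d ≠ c) : d = !c := by
  cases d <;> cases c <;> simp_all

theorem ko_of {P : Pos V} {c : Bool} {e u : V} (hA : Alive G P) (he : P e = none) (heye : ∀ w, G.Adj e w → P w = some (!c))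
    (hu : P u = some (!c)) (hu' : play G P c e u = none)
    (huniq : ∀ v, P v = some (!c) → v ≠ u → play G P c e v = some (!c)) : KoCapture G P c e := by
  have hue : u ≠ e := ne_e he hu
  have hadj : G.Adj e u := by
    obtain ⟨w, h1, h2, h3⟩ := capt_adj hA he hu hu'
    have h4 : w = u := by
      by_contra hne
      rw [huniq w h1 hne] at h2
      cases h2
    rw [← h4]
    exact h3.symm
  have hplay : play G P c e = put (put P e (some c)) u none := by
    funext v
    by_cases hvu : v = u
    · subst hvu
      rw [put_same, hu']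
    · rw [put_ne _ hvu]
      by_cases hve : v = e
      · subst hve
        rw [put_same]
        exact own_stay hA he hu hu' (Or.inl rfl)
      · rw [put_ne _ hve]
        by_cases h0 : P v = none
        · rw [none_of h0 hve, h0]
        · obtain ⟨d, hd⟩ := Option.ne_none_iff_exists'.1 h0
          by_cases hdc : d = c
          · subst hdc
            rw [own_stay hA he hu hu' (Or.inr hd), hd]
          · have hd' := bool_cases hdc
            subst hd'
            rw [huniq v hd hvu, hd]
  refine ⟨he, u, hadj, hu, hplay, heye, ?_, ?_⟩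
  · intro w hw
    rcases capt_nbr he hu hu' hw with h | ⟨h1, h2⟩
    · exact own_stay hA he hu hu' h
    · exfalso
      rw [huniq w h1 hw.ne'] at h2
      cases h2
  · have h1 : put (play G P c e) u (some (!c)) = put P e (some c) := by
      funext v
      by_cases hvu : v = u
      · subst hvu
        rw [put_same, put_ne _ hue, hu]
      · rw [put_ne _ hvu, hplay, put_ne _ hvu]
    have h2 : clear G c (put P e (some c)) = P := by
      funext v
      by_cases hve : v = e
      · subst hve
        rw [he]
        refine clear_dead (put_same _ _ _) ?_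
        rintro ⟨a, x, ha, hax, hx⟩
        have hav : a = v := by
          rcases Relation.ReflTransGen.cases_head ha with h | ⟨b, hb, -⟩
          · exact h.symm
          · exfalso
            have h3 := hb.2
            rw [put_same, put_ne _ hb.1.ne', heye b hb.1] at h3
            exact some_bne c h3.symm
        subst hav
        rw [put_ne _ hax.ne', heye x hax] at hx
        cases hx
      · have hq : put P e (some c) v = P v := put_ne _ hve
        by_cases hvc : P v = some c
        · rw [clear_lib, hq]
          obtain ⟨a, x, h3, h4, h5⟩ := hA v (by rw [hvc]; exact Option.some_ne_none _)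
          have hxe : x ≠ e := by
            rintro rfl
            have h6 := heye a h4.symm
            rw [chain_eq h3, hvc] at h6
            exact some_bne c h6.symm
          refine ⟨a, x, chain_mono (c := c) (fun y hy => ?_) hvc h3, h4, by rw [put_ne _ hxe, h5]⟩
          rw [put_ne _ (ne_e he hy), hy]
        · by_cases h0 : P v = none
          · rw [clear_none (by rw [hq, h0]), h0]
          · obtain ⟨d, hd⟩ := Option.ne_none_iff_exists'.1 h0
            have hdc : d ≠ c := by
              rintro rfl
              exact hvc hd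
            rw [clear_other (d := d) (by rw [hq, hd]) hdc, hd]
    unfold play at h1 ⊢
    rw [Bool.not_not, h1, h2, clear_alive hA]

/-! ## Counting -/

/-- the stones of colour `c` -/
def stones (P : Pos V) (c : Bool) : Set V := {v | P v = some c}

/-- the empty points all of whose neighbours have colour `c` -/
def eyes (G : SimpleGraph V) (P : Pos V) (c : Bool) : Set V := {x | P x = none ∧ ∀ w, G.Adj x w → P w = some c}

theorem eye_sub {P : Pos V} {c : Bool} {e x : V} (he : P e = none) (hx : x ∈ eyes G P (!c)) (hxe : x ≠ e) :
    x ∈ eyes G (play G P c e) (!c) :=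
  ⟨none_of hx.1 hxe, fun w hw => opp_stay he (hx.2 w hw) hw.symm hx.1 hxe⟩

variable [Finite V]

theorem own_le {P : Pos V} {c : Bool} {e : V} :
    (stones (play G P c e) c).ncard ≤ (stones P c).ncard + 1 := by
  have h1 : stones (play G P c e) c ⊆ insert e (stones P c) := fun v hv => own_of hv
  refine (Set.ncard_le_ncard h1 (Set.toFinite _)).trans (Set.ncard_insert_le _ _)

theorem own_eq {P : Pos V} {c : Bool} {e : V} (h : (stones (play G P c e) c).ncard = (stones P c).ncard + 1) {v : V}
    (hv : v = e ∨ P v = some c) : play G P c e v = some c := by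
  have h1 : stones (play G P c e) c ⊆ insert e (stones P c) := fun v hv => own_of hv
  have h2 := Set.eq_of_subset_of_ncard_le h1 (by rw [h]; exact Set.ncard_insert_le _ _) (Set.toFinite _)
  have h3 : v ∈ insert e (stones P c) := hv
  rw [← h2] at h3
  exact h3

theorem opp_le {P : Pos V} {c : Bool} {e : V} : (stones (play G P c e) (!c)).ncard ≤ (stones P (!c)).ncard :=
  Set.ncard_le_ncard (fun _ hv => opp_of hv) (Set.toFinite _)

theorem opp_lt {P : Pos V} {c : Bool} {e v : V} (hv : P v = some (!c)) (h : play G P c e v = none) :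
    (stones (play G P c e) (!c)).ncard + 1 ≤ (stones P (!c)).ncard := by
  apply Set.ncard_lt_ncard _ (Set.toFinite _)
  refine ⟨fun _ hv => opp_of hv, fun hcon => ?_⟩
  have h1 : play G P c e v = some (!c) := hcon hv
  rw [h] at h1
  cases h1

theorem opp_eq {P : Pos V} {c : Bool} {e : V} (he : P e = none)
    (h : (stones (play G P c e) (!c)).ncard + 1 = (stones P (!c)).ncard) :
    ∃ u, P u = some (!c) ∧ play G P c e u = none ∧ ∀ v, P v = some (!c) → v ≠ u → play G P c e v = some (!c) := by
  have hsub : stones (play G P c e) (!c) ⊆ stones P (!c) := fun _ hv => opp_of hv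
  obtain ⟨u, hu, hi⟩ := (Set.exists_eq_insert_iff_ncard (Set.toFinite _)).2 ⟨hsub, h⟩
  have h1 : P u = some (!c) := by
    have : u ∈ stones P (!c) := by rw [← hi]; exact Set.mem_insert _ _
    exact this
  refine ⟨u, h1, ?_, ?_⟩
  · by_contra hcon
    obtain ⟨d, hd⟩ := Option.ne_none_iff_exists'.1 hcon
    by_cases hdc : d = c
    · subst hdc
      rcases own_of hd with h2 | h2
      · exact ne_e he h1 h2
      · rw [h1] at h2
        exact some_bne _ h2
    · rw [bool_cases hdc] at hd
      exact hu hd
  · intro v hv hne
    have h2 : v ∈ insert u (stones (play G P c e) (!c)) := by rw [hi]; exact hv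
    rcases h2 with h2 | h2
    · exact absurd h2 hne
    · exact h2

/-- a capture of exactly one stone creates an eye -/
theorem eye_up {P : Pos V} {c : Bool} {e u : V} (hA : Alive G P) (he : P e = none) (hu : P u = some (!c))
    (hu' : play G P c e u = none) (huniq : ∀ v, P v = some (!c) → v ≠ u → play G P c e v = some (!c)) :
    (eyes G P c).ncard + 1 ≤ (eyes G (play G P c e) c).ncard := by
  have h1 : u ∉ eyes G P c := by
    rintro ⟨h1, -⟩
    rw [hu] at h1
    cases h1
  rw [← Set.ncard_insert_of_notMem h1 (Set.toFinite _)]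
  apply Set.ncard_le_ncard _ (Set.toFinite _)
  intro x hx
  rcases hx with rfl | ⟨hx0, hx⟩
  · refine ⟨hu', fun w hw => ?_⟩
    rcases capt_nbr he hu hu' hw with h | ⟨h2, h3⟩
    · exact own_stay hA he hu hu' h
    · exfalso
      rw [huniq w h2 hw.ne'] at h3
      cases h3
  · have hxe : x ≠ e := by
      rintro rfl
      obtain ⟨w, h2, -, h4⟩ := capt_adj hA he hu hu'
      rw [hx w h4.symm] at h2
      exact some_bne c h2.symm
    exact ⟨none_of hx0 hxe, fun w hw => own_stay hA he hu hu' (Or.inr (hx w hw))⟩

/-- the other colour destroys at most one eye -/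
theorem eye_down {P : Pos V} {c : Bool} {e : V} (he : P e = none) :
    (eyes G P (!c)).ncard ≤ (eyes G (play G P c e) (!c)).ncard + 1 := by
  have h1 : eyes G P (!c) ⊆ insert e (eyes G (play G P c e) (!c)) := by
    intro x hx
    by_cases hxe : x = e
    · exact Or.inl hxe
    · exact Or.inr (eye_sub he hx hxe)
  exact (Set.ncard_le_ncard h1 (Set.toFinite _)).trans (Set.ncard_insert_le _ _)

theorem eye_eq {P : Pos V} {c : Bool} {e : V} (he : P e = none)
    (h : (eyes G P (!c)).ncard = (eyes G (play G P c e) (!c)).ncard + 1) : e ∈ eyes G P (!c) := by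
  by_contra hcon
  have h1 : eyes G P (!c) ⊆ eyes G (play G P c e) (!c) := by
    intro x hx
    refine eye_sub he hx ?_
    rintro rfl
    exact hcon hx
  have h2 := Set.ncard_le_ncard h1 (Set.toFinite _)
  omega

end

/-- telescoping -/
theorem tele (n : ℕ) (f σ : ℕ → ℤ) (h : ∀ i < n, f (i + 1) ≤ f i + σ i) (hf : f n = f 0)
    (hσ : ∑ i ∈ Finset.range n, σ i ≤ 0) :
    (∀ i < n, f (i + 1) = f i + σ i) ∧ ∑ i ∈ Finset.range n, σ i = 0 := by
  have h1 : ∑ i ∈ Finset.range n, (f (i + 1) - f i) = 0 := by
    rw [Finset.sum_range_sub, hf, sub_self]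
  have h2 : ∀ i ∈ Finset.range n, 0 ≤ σ i - (f (i + 1) - f i) := fun i hi => by
    have := h i (Finset.mem_range.1 hi)
    linarith
  have h3 : ∑ i ∈ Finset.range n, (σ i - (f (i + 1) - f i)) = ∑ i ∈ Finset.range n, σ i := by
    rw [Finset.sum_sub_distrib, h1, sub_zero]
  have h4 : ∑ i ∈ Finset.range n, (σ i - (f (i + 1) - f i)) = 0 :=
    le_antisymm (by rw [h3]; exact hσ) (Finset.sum_nonneg h2)
  refine ⟨fun i hi => ?_, by rw [← h3, h4]⟩
  have h5 := (Finset.sum_eq_zero_iff_of_nonneg h2).1 h4 i (Finset.mem_range.2 hi)
  linarith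

end Pool.Agent.Helper19.SK
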