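import Pool.Agent.Helper19.SK.Cycle
import Pool.Agent.Helper19.SK.Game

/-!
# Forced play under superko: all cycles are undirected
-/

set_option autoImplicit false

namespace Pool.Agent.Helper19.SK

theorem exists_seq {S : Type} {M : S → S → Prop} {s t : S} (h : Reach M s t) :
    ∃ (n : ℕ) (f : ℕ → S), f 0 = s ∧ f n = t ∧ ∀ i < n, M (f i) (f (i + 1)) := by
  induction h using Relation.ReflTransGen.head_induction_on with
  | refl => exact ⟨0, fun _ => t, rfl, rfl, fun i hi => absurd hi (Nat.not_lt_zero i)⟩
  | @head a c hac _ ih =>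
    obtain ⟨n, f, h0, hn, hf⟩ := ih
    refine ⟨n + 1, fun i => Nat.casesOn i a f, rfl, hn, fun i hi => ?_⟩
    cases i with
    | zero =>
      change M a (f 0)
      rw [h0]
      exact hac
    | succ i => exact hf i (by omega)

section
variable {V : Type} {G : SimpleGraph V} {A : Pos V → Bool → Option V → Prop}

theorem walk_closed {n : ℕ} (f : ℕ → State V) (h : ∀ i < n, Mv G A (f i) (f (i + 1))) (hc : (f n).1 = (f 0).1) :
    ∃ m : ℕ → Option V, Closed G n (fun i => (f i).1) (fun i => (f i).2) m ∧
      (∀ i < n, A (f i).1 (f i).2 (m i)) ∧ ∀ i < n, (f (i + 1)).2 = !(f i).2 := by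
  have key : ∀ i, ∃ m : Option V, i < n → (((m = none ∧ (f (i + 1)).1 = (f i).1) ∨
      ∃ e, m = some e ∧ (f i).1 e = none ∧ (f (i + 1)).1 = play G (f i).1 (f i).2 e) ∧ A (f i).1 (f i).2 m ∧
      (f (i + 1)).2 = !(f i).2) := by
    intro i
    by_cases hi : i < n
    · rcases h i hi with ⟨h1, h2⟩ | ⟨e, h1, h2, h3⟩
      · exact ⟨none, fun _ => ⟨Or.inl ⟨rfl, by rw [h2]⟩, h1, by rw [h2]⟩⟩
      · exact ⟨some e, fun _ => ⟨Or.inr ⟨e, rfl, h1, by rw [h3]⟩, h2, by rw [h3]⟩⟩
    · exact ⟨none, fun h => absurd h hi⟩
  choose m hm using key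
  exact ⟨m, ⟨fun i hi => (hm i hi).1, hc⟩, fun i hi => (hm i hi).2.1, fun i hi => (hm i hi).2.2⟩

/-- `1` for Black and `-1` for White -/
def ep (c : ℕ → Bool) (i : ℕ) : ℤ := if c i = true then 1 else -1

theorem sum_alt {n : ℕ} (c : ℕ → Bool) (h : ∀ i < n, c (i + 1) = !c i) :
    2 * ∑ i ∈ Finset.range n, ep c i = ep c 0 - ep c n := by
  rw [← Finset.sum_range_sub', Finset.mul_sum]
  refine Finset.sum_congr rfl fun i hi => ?_
  have h1 := h i (Finset.mem_range.1 hi)
  unfold ep
  rw [h1]
  cases c i <;> simp

/-- if White does not pass, the signs of the placements are at most the signs of the moves -/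
theorem sg_le {c : ℕ → Bool} {m : ℕ → Option V} {i : ℕ} (h : c i = false → m i ≠ none) : sg c m true i ≤ ep c i := by
  unfold ep
  cases hm : m i with
  | none =>
    rw [sg_none hm]
    cases hc : c i with
    | true => simp
    | false => exact absurd hm (h hc)
  | some e =>
    by_cases hc : c i = true
    · rw [sg_pos hm hc, if_pos hc]
    · rw [sg_neg hm hc, if_neg hc]

/-- taking back an allowed ko capture -/
theorem mv_back (hA : Retake G A) {a b : State V} {e : V} (hAe : A a.1 a.2 (some e)) (hk : KoCapture G a.1 a.2 e)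
    (hb : b = (play G a.1 a.2 e, !a.2)) : Mv G A b a := by
  obtain ⟨he, u, hadj, hu, hplay, -, -, hback⟩ := id hk
  have hun : play G a.1 a.2 e u = none := by
    rw [hplay, put_same]
  subst hb
  refine Or.inr ⟨u, hun, ?_, ?_⟩
  · exact hA _ _ _ _ hAe hk (by rw [hu]; exact Option.some_ne_none _) hun
  · change a = (play G (play G a.1 a.2 e) (!a.2) u, !(!a.2))
    rw [hback, Bool.not_not]

theorem reach_ko [Finite V] (hA : Forced G A) (a b : State V) (hab : Mv G A a b) (hba : Reach (Mv G A) b a) :
    ∃ e, A a.1 a.2 (some e) ∧ KoCapture G a.1 a.2 e ∧ b = (play G a.1 a.2 e, !a.2) := by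
  obtain ⟨n, f, h0, hn, hf⟩ := exists_seq hba
  set g : ℕ → State V := fun i => Nat.casesOn i a f with hg
  have hg0 : g 0 = a := rfl
  have hgs : ∀ i, g (i + 1) = f i := fun _ => rfl
  have hgm : ∀ i < n + 1, Mv G A (g i) (g (i + 1)) := by
    intro i hi
    cases i with
    | zero =>
      rw [hg0, hgs, h0]
      exact hab
    | succ i =>
      rw [hgs, hgs]
      exact hf i (by omega)
  have hcl : g (n + 1) = g 0 := by rw [hgs, hn, hg0]
  obtain ⟨m, hC, hAe, halt⟩ := walk_closed g hgm (by rw [hcl])
  have hsum := sum_alt (fun i => (g i).2) halt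
  have hep : ∑ i ∈ Finset.range (n + 1), ep (fun i => (g i).2) i = 0 := by
    have h1 : ep (fun i => (g i).2) 0 = ep (fun i => (g i).2) (n + 1) := by
      unfold ep
      simp only [hcl]
    rw [h1, sub_self] at hsum
    linarith
  have hnp : ∀ i < n + 1, (g i).2 = false → m i ≠ none := by
    intro i hi hc hm
    have h1 := hAe i hi
    rw [hc, hm] at h1
    exact hA.1 _ h1
  have hle : ∀ i ∈ Finset.range (n + 1), sg (fun i => (g i).2) m true i ≤ ep (fun i => (g i).2) i := fun i hi =>
    sg_le (c := fun i => (g i).2) (hnp i (Finset.mem_range.1 hi))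
  have hs0 : ∑ i ∈ Finset.range (n + 1), sg (fun i => (g i).2) m true i ≤ 0 := by
    rw [← hep]
    exact Finset.sum_le_sum hle
  have hcap : ∀ i < n + 1, m i ≠ none → (g i).2 = false → ∃ v, (g i).1 v = some true ∧ (g (i + 1)).1 v = none := by
    intro i hi hmn hc
    obtain ⟨e, hm⟩ := Option.ne_none_iff_exists'.1 hmn
    obtain ⟨h1, h2⟩ := place_of hC hi hm
    have h3 := hAe i hi
    rw [hc, hm] at h3
    obtain ⟨v, h4, h5⟩ := hA.2.1 _ _ h1 h3
    refine ⟨v, h4, ?_⟩
    have h6 : (g (i + 1)).1 = play G (g i).1 (g i).2 e := h2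
    rw [h6, hc]
    exact h5
  obtain ⟨hsg, hko⟩ := main_sum hC hs0 hcap
  have heq : ∀ i ∈ Finset.range (n + 1), sg (fun i => (g i).2) m true i = ep (fun i => (g i).2) i := by
    refine (Finset.sum_eq_sum_iff_of_le hle).1 ?_
    rw [hep]
    exact hsg
  have hm0 : m 0 ≠ none := by
    intro h
    have h1 := heq 0 (Finset.mem_range.2 (Nat.succ_pos n))
    rw [sg_none h] at h1
    unfold ep at h1
    split_ifs at h1
    all_goals omega
  obtain ⟨e, he⟩ := Option.ne_none_iff_exists'.1 hm0
  have hk0 := hko 0 (Nat.succ_pos n) e he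
  have hA0 := hAe 0 (Nat.succ_pos n)
  rw [he] at hA0
  have hP0 : (g 1).1 = play G (g 0).1 (g 0).2 e := (place_of hC (Nat.succ_pos n) he).2
  have hc0 : (g 1).2 = !(g 0).2 := halt 0 (Nat.succ_pos n)
  simp only [hg0] at hk0 hA0 hP0 hc0
  have hg1 : g 1 = b := h0
  rw [hg1] at hP0 hc0
  exact ⟨e, hA0, hk0, Prod.ext hP0 hc0⟩

theorem reach_undo [Finite V] (hA : Forced G A) (a b : State V) (hab : Mv G A a b) (hba : Reach (Mv G A) b a) :
    Mv G A b a := by
  obtain ⟨e, h1, h2, h3⟩ := reach_ko hA a b hab hba
  exact mv_back hA.2.2 h1 h2 h3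

theorem mv_ko {a b : State V} {e : V} (h1 : A a.1 a.2 (some e)) (h2 : KoCapture G a.1 a.2 e)
    (h3 : b = (play G a.1 a.2 e, !a.2)) : Mv G A a b := Or.inr ⟨e, h2.1, h1, h3⟩

theorem koGraph_mv (hA : Retake G A) (s t : State V) (h : (KoGraph G A).Adj s t) : Mv G A s t := by
  rcases h.2 with ⟨e, h1, h2, h3⟩ | ⟨e, h1, h2, h3⟩
  · exact mv_ko h1 h2 h3
  · exact mv_back hA h1 h2 h3

theorem ko_ne {P : Pos V} {c : Bool} {e : V} (h : KoCapture G P c e) : play G P c e ≠ P := by
  obtain ⟨he, u, hadj, hu, hplay, -, -, -⟩ := h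
  intro h1
  have h2 : play G P c e u = none := by
    rw [hplay, put_same]
  rw [h1, hu] at h2
  cases h2

theorem koGraph_ne (s t : State V) (h : (KoGraph G A).Adj s t) : t.1 ≠ s.1 := by
  rcases h.2 with ⟨e, h1, h2, h3⟩ | ⟨e, h1, h2, h3⟩
  · rw [h3]
    exact ko_ne h2
  · rw [h3]
    exact (ko_ne h2).symm

theorem koGraph_iff [Finite V] (hA : Forced G A) (s t : State V) (h : Mv G A s t) : (KoGraph G A).Adj s t ↔ Mv G A t s := by
  constructor
  · intro h1
    exact koGraph_mv hA.2.2 t s h1.symm
  · intro h1
    obtain ⟨e, h2, h3, h4⟩ := reach_ko hA s t h (Relation.ReflTransGen.single h1)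
    refine ⟨?_, Or.inl ⟨e, h2, h3, h4⟩⟩
    rintro rfl
    exact ko_ne h3 (congrArg Prod.fst h4).symm

theorem cyc_situational [Finite V] (hA : Forced G A) : Cyc (Mv G A) (id : State V → State V) where
  irr := by
    rintro ⟨P, c⟩ h
    have h1 : c = !c := by
      rcases h with ⟨-, h⟩ | ⟨e, -, -, h⟩
      · exact congrArg Prod.snd h
      · exact congrArg Prod.snd h
    cases c <;> simp at h1
  undo := fun a b h1 h2 => reach_undo hA a b h1 h2
  key := fun _ _ _ h => h

/-- if the own stone count does not change, the position does not change -/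
theorem null_of [Finite V] {P : Pos V} {c : Bool} {e : V} (hA : Alive G P) (he : P e = none)
    (h : (stones (play G P c e) c).ncard = (stones P c).ncard) : play G P c e = P := by
  have hsub : stones (play G P c e) c ⊆ insert e (stones P c) := fun v hv => own_of hv
  have hes : e ∉ stones P c := by
    intro h1
    have h2 : P e = some c := h1
    rw [he] at h2
    cases h2
  have hcard : (stones (play G P c e) c).ncard + 1 = (insert e (stones P c)).ncard := by
    rw [Set.ncard_insert_of_notMem hes (Set.toFinite _), h]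
  obtain ⟨x, hx, hi⟩ := (Set.exists_eq_insert_iff_ncard (Set.toFinite _)).2 ⟨hsub, hcard⟩
  have hdead : ∀ y, P y = some c → play G P c e e = some c → play G P c e y = some c := by
    intro y hy hee
    have h1 : clear G (!c) (put P e (some c)) e = some c := clear_some hee
    have h2 : Lib G (clear G (!c) (put P e (some c))) e := by
      by_contra hcon
      have h3 : play G P c e e = none := clear_dead h1 hcon
      rw [h3] at hee
      cases hee
    have hown : ∀ z, (z = e ∨ P z = some c) → clear G (!c) (put P e (some c)) z = some c := by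
      rintro z (rfl | hz)
      · exact h1
      · exact clear_other (by rw [put_ne _ (ne_e he hz), hz]) (bne_c c).symm
    obtain ⟨a, u, h4, h5, h6⟩ := hA y (by rw [hy]; exact Option.some_ne_none _)
    have h7 : Chain G (clear G (!c) (put P e (some c))) y a := chain_mono (c := c) (fun z hz => hown z (Or.inr hz)) hy h4
    have h8 : Lib G (clear G (!c) (put P e (some c))) y := by
      by_cases hu : u = e
      · subst hu
        refine lib_chain (h7.tail ⟨h5, ?_⟩) h2
        rw [h1, hown a (Or.inr (by rw [chain_eq h4, hy]))]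
      · exact ⟨a, u, h7, h5, clear_none (by rw [put_ne _ hu, h6])⟩
    have h9 : play G P c e y = clear G (!c) (put P e (some c)) y := clear_lib h8
    rw [h9, hown y (Or.inr hy)]
  have hee : play G P c e e ≠ some c := by
    intro hee
    have h1 : x ∈ insert e (stones P c) := by
      rw [← hi]
      exact Set.mem_insert _ _
    rcases h1 with rfl | h1
    · exact hx hee
    · exact hx (hdead x h1 hee)
  have hxe : x = e := by
    have h1 : e ∈ insert x (stones (play G P c e) c) := by
      rw [hi]
      exact Set.mem_insert _ _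
    rcases h1 with h1 | h1
    · exact h1.symm
    · exact absurd h1 hee
  funext v
  by_cases hve : v = e
  · subst hve
    by_contra hcon
    rw [he] at hcon
    obtain ⟨d, hd⟩ := Option.ne_none_iff_exists'.1 hcon
    by_cases hdc : d = c
    · subst hdc
      exact hee hd
    · rw [bool_cases hdc] at hd
      have h1 := opp_of hd
      rw [he] at h1
      cases h1
  · by_cases h0 : P v = none
    · rw [none_of h0 hve, h0]
    · obtain ⟨d, hd⟩ := Option.ne_none_iff_exists'.1 h0
      by_cases hdc : d = c
      · subst hdc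
        have h1 : v ∈ insert x (stones (play G P d e) d) := by
          rw [hi]
          exact Or.inr hd
        rcases h1 with h1 | h1
        · exact absurd (h1.trans hxe) hve
        · rw [hd]
          exact h1
      · have hd' := bool_cases hdc
        subst hd'
        by_contra hcon
        rw [hd] at hcon
        have h2 : play G P c e v = none := by
          by_contra h3
          obtain ⟨d, hd2⟩ := Option.ne_none_iff_exists'.1 h3
          by_cases hdc2 : d = c
          · subst hdc2
            rcases own_of hd2 with h4 | h4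
            · exact hve h4
            · rw [hd] at h4
              exact some_bne _ h4
          · rw [bool_cases hdc2] at hd2
            exact hcon hd2
        exact hee (own_stay hA he hd h2 (Or.inl rfl))

theorem forced_of_one (hA : ForcedOne G A) : Forced G A :=
  ⟨hA.1, fun P e h1 h2 => by
    obtain ⟨v, hv, -⟩ := hA.2.1 P e h1 h2
    exact ⟨v, hv⟩, hA.2.2⟩

theorem key_positional [Finite V] (hA : ForcedOne G A) (a b : State V) (hab : Reach (MvP G A) a b) (hk : a.1 = b.1) :
    a = b := by
  by_contra hne
  have hcol : b.2 = !a.2 := by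
    apply bool_cases
    intro h
    exact hne (Prod.ext hk h.symm)
  obtain ⟨n, f, h0, hn, hf⟩ := exists_seq hab
  obtain ⟨m, hC, hAe, halt⟩ := walk_closed f (fun i hi => (hf i hi).1) (by rw [hn, h0, hk])
  -- there are no passes
  have hnp : ∀ i < n, m i ≠ none := by
    intro i hi hm
    rcases hC.1 i hi with ⟨-, h1⟩ | ⟨e, h1, -⟩
    · exact (hf i hi).2 h1
    · rw [hm] at h1
      cases h1
  have hsum := sum_alt (fun i => (f i).2) halt
  set c : ℕ → Bool := fun i => (f i).2 with hc
  have hsgep : ∀ i ∈ Finset.range n, sg c m true i = ep c i := by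
    intro i hi
    obtain ⟨e, hm⟩ := Option.ne_none_iff_exists'.1 (hnp i (Finset.mem_range.1 hi))
    unfold ep
    by_cases hci : c i = true
    · rw [sg_pos hm hci, if_pos hci]
    · rw [sg_neg hm hci, if_neg hci]
  have hcn : c n = !c 0 := by
    rw [hc]
    simp only [hn, h0, hcol]
  have hepn : ep c n = -ep c 0 := by
    unfold ep
    rw [hcn]
    cases c 0 <;> simp
  have hs : ∑ i ∈ Finset.range n, sg c m true i = ep c 0 := by
    rw [Finset.sum_congr rfl hsgep]
    have h5 : 2 * ∑ i ∈ Finset.range n, ep c i = ep c 0 - ep c n := hsum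
    linarith
  have hcapone : ∀ i < n, c i = false → ∃! v, (f i).1 v = some true ∧ (f (i + 1)).1 v = none := by
    intro i hi hci
    obtain ⟨e, hm⟩ := Option.ne_none_iff_exists'.1 (hnp i hi)
    obtain ⟨h1, h2⟩ := place_of hC hi hm
    have h3 := hAe i hi
    have hci' : (f i).2 = false := hci
    rw [hci', hm] at h3
    have h5 := hA.2.1 _ _ h1 h3
    have h6 : (f (i + 1)).1 = play G (f i).1 (f i).2 e := h2
    rw [h6, hci']
    exact h5
  have hcap : ∀ i < n, m i ≠ none → c i = false → ∃ v, (f i).1 v = some true ∧ (f (i + 1)).1 v = none := by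
    intro i hi _ hci
    obtain ⟨v, hv, -⟩ := hcapone i hi hci
    exact ⟨v, hv⟩
  cases hc0 : c 0 with
  | false =>
    have h1 : ep c 0 = -1 := by
      unfold ep
      rw [hc0]
      simp
    obtain ⟨h2, -⟩ := main_sum hC (by rw [hs, h1]; norm_num) hcap
    have h3 : ∑ i ∈ Finset.range n, sg c m true i = 0 := h2
    rw [hs, h1] at h3
    norm_num at h3
  | true =>
    have h1 : ep c 0 = 1 := by
      unfold ep
      rw [hc0]
      simp
    rw [h1] at hs
    -- the number of Black stones
    set φ : ℕ → ℤ := fun i => ((stones (f i).1 true).ncard : ℤ) with hφ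
    have hφsum : ∑ i ∈ Finset.range n, (φ (i + 1) - φ i) = 0 := by
      rw [Finset.sum_range_sub]
      simp only [hφ, hn, h0, hk, sub_self]
    have hdiff : ∑ i ∈ Finset.range n, (sg c m true i - (φ (i + 1) - φ i)) = 1 := by
      rw [Finset.sum_sub_distrib, hφsum, hs, sub_zero]
    obtain ⟨i, hi, hpos⟩ : ∃ i ∈ Finset.range n, 0 < sg c m true i - (φ (i + 1) - φ i) := by
      by_contra hcon
      simp only [not_exists, not_and, not_lt] at hcon
      have := Finset.sum_nonpos hcon
      omega
    have hnn : ∀ j ∈ Finset.range n, 0 ≤ sg c m true j - (φ (j + 1) - φ j) ∧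
        (c j = false → sg c m true j - (φ (j + 1) - φ j) = 0) := by
      intro j hj
      have hj' := Finset.mem_range.1 hj
      obtain ⟨e, hm⟩ := Option.ne_none_iff_exists'.1 (hnp j hj')
      obtain ⟨he, hP⟩ := place_of hC hj' hm
      have hP' : (f (j + 1)).1 = play G (f j).1 (f j).2 e := hP
      cases hcj : c j with
      | true =>
        refine ⟨?_, fun h => by cases h⟩
        have h2 : sg c m true j = 1 := sg_pos hm hcj
        have hcj' : (f j).2 = true := hcj
        have h3 := own_le (G := G) (P := (f j).1) (c := true) (e := e)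
        rw [hcj'] at hP'
        rw [← hP'] at h3
        rw [h2]
        simp only [hφ]
        omega
      | false =>
        have h2 : sg c m true j = -1 := sg_neg hm (by rw [hcj]; exact Bool.false_ne_true)
        have hcj' : (f j).2 = false := hcj
        obtain ⟨u, ⟨hu1, hu2⟩, huniq⟩ := hcapone j hj' hcj
        rw [hcj'] at hP'
        have h3 : insert u (stones (f (j + 1)).1 true) = stones (f j).1 true := by
          ext v
          constructor
          · rintro (rfl | hv)
            · exact hu1
            · have hv' : (f (j + 1)).1 v = some true := hv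
              rw [hP'] at hv'
              exact opp_of (c := false) hv'
          · intro hv
            by_cases hvu : v = u
            · exact Or.inl hvu
            · right
              have hv' : (f j).1 v = some true := hv
              have h4 : (f (j + 1)).1 v ≠ none := fun h => hvu (huniq v ⟨hv', h⟩)
              obtain ⟨d, hd⟩ := Option.ne_none_iff_exists'.1 h4
              cases d with
              | true => exact hd
              | false =>
                exfalso
                rw [hP'] at hd
                rcases own_of hd with h5 | h5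
                · exact ne_e he hv' h5
                · rw [hv'] at h5
                  cases h5
        have h4 : u ∉ stones (f (j + 1)).1 true := by
          intro h
          have h5 : (f (j + 1)).1 u = some true := h
          rw [hu2] at h5
          cases h5
        have h5 : (stones (f j).1 true).ncard = (stones (f (j + 1)).1 true).ncard + 1 := by
          rw [← h3, Set.ncard_insert_of_notMem h4 (Set.toFinite _)]
        rw [h2]
        simp only [hφ]
        constructor
        · omega
        · intro _
          omega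
    have hci : c i = true := by
      cases hci : c i with
      | true => rfl
      | false =>
        have := (hnn i hi).2 hci
        omega
    have hle1 : sg c m true i - (φ (i + 1) - φ i) ≤ 1 := by
      rw [← hdiff]
      exact Finset.single_le_sum (fun j hj => (hnn j hj).1) hi
    have hi' := Finset.mem_range.1 hi
    obtain ⟨e, hm⟩ := Option.ne_none_iff_exists'.1 (hnp i hi')
    have hsgi : sg c m true i = 1 := sg_pos hm hci
    obtain ⟨he, hP⟩ := place_of hC hi' hm
    have hP' : (f (i + 1)).1 = play G (f i).1 (f i).2 e := hP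
    have hci' : (f i).2 = true := hci
    rw [hci'] at hP'
    have h2 : (stones (play G (f i).1 true e) true).ncard = (stones (f i).1 true).ncard := by
      rw [← hP']
      simp only [hφ] at hle1 hpos
      omega
    have h3 := null_of (alive_of hC hi' (hnp i hi') hi'.le) he h2
    exact (hf i hi').2 (hP'.trans h3)

theorem reach_mono {S : Type} {M M' : S → S → Prop} (h : ∀ a b, M a b → M' a b) {a b : S} (hab : Reach M a b) :
    Reach M' a b :=
  Relation.ReflTransGen.mono h _ _ hab

theorem cyc_positional [Finite V] (hA : ForcedOne G A) : Cyc (MvP G A) (Prod.fst : State V → Pos V) where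
  irr := fun _ h => h.2 rfl
  undo := fun a b h1 h2 => ⟨reach_undo (forced_of_one hA) a b h1.1 (reach_mono (fun _ _ h => h.1) h2), h1.2.symm⟩
  key := fun a b h1 h2 => key_positional hA a b h1 h2

theorem solution_situational [Finite V] (hA : Forced G A) (H₀ : Set (State V)) :
    (∃ B, ExitSet (Mv G A) (KoGraph G A) id H₀ B) ∧ ∀ B, ExitSet (Mv G A) (KoGraph G A) id H₀ B → ∀ s : State V, s ∉ H₀ →
      (Wins (Mv G A) id (insert s H₀) s ↔ s ∈ B ∨ Essential (KoGraph G A) (B ∪ H₀) s) :=
  solutionW (cyc_situational hA) (KoGraph G A) (fun s t h => koGraph_iff hA s t h) (fun s t h => koGraph_mv hA.2.2 s t h) H₀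

theorem solution_positional [Finite V] (hA : ForcedOne G A) (H₀ : Set (Pos V)) :
    (∃ B, ExitSet (MvP G A) (KoGraph G A) Prod.fst H₀ B) ∧
      ∀ B, ExitSet (MvP G A) (KoGraph G A) Prod.fst H₀ B → ∀ s : State V, s.1 ∉ H₀ →
        (Wins (MvP G A) Prod.fst (insert s.1 H₀) s ↔ s ∈ B ∨ Essential (KoGraph G A) (B ∪ Prod.fst ⁻¹' H₀) s) := by
  refine solutionW (cyc_positional hA) (KoGraph G A) (fun s t h => ?_) (fun s t h => ?_) H₀
  · rw [koGraph_iff (forced_of_one hA) s t h.1]
    exact ⟨fun h1 => ⟨h1, h.2.symm⟩, fun h1 => h1.1⟩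
  · exact ⟨koGraph_mv hA.2.2 s t h, koGraph_ne s t h⟩

end

end Pool.Agent.Helper19.SK
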